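import Pool.Agent.H26.GN.Vs

/-!
ROW QC/V1 (about 80 lines): the Selmer group of the family.

PROOF. (1) `S.V (D * δ) c ↔ S.V D c`: copy the proof of `H30GX.V_same` (Pool/Agent/H26/GN/Vs.lean); it uses `hout` only for the places not above `Sg` (branch `h1`), so the weaker hypothesis is enough. (2) `S.V (D' * γ ^ 2) c ↔ S.V D' c` for every `D' ≠ 0`, `γ ≠ 0`: `H76OD.Wc_tw_iff` at all finite places and `H76OD.Wc_tw_real` at the real places (`γ ^ 2` is a square everywhere; see (1)).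
-/

set_option autoImplicit false
set_option linter.unusedSectionVars false
open scoped Classical

open WithZero NumberField IsDedekindDomain H38RT
open H38T1 (SC sc scu rep eo la si OddP)
open H76PP H36CY H88GX H30ZO

namespace H30QC

open H30OD (noroot_up Wc_all)
open H30GX

private theorem V_unit {K F L : Type} [Field K] [NumberField K] [Field F] [NumberField F] [Field L]
    [NumberField L] [Algebra K F] [Algebra F L] {a b : K} {θ : L}
    {Sg : Finset (HeightOneSpectrum (𝓞 K))} (S : H88GX.Ext K F L a b θ) {D : K} (hok : S.Ok D Sg)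
    {δ : K} (hδ0 : δ ≠ 0)
    (hsq : ∀ u ∈ Sg, IsSquare (algebraMap K (u.adicCompletion K) δ))
    (hpos : ∀ s : K →+* ℝ, 0 < s δ)
    (hout : ∀ u : HeightOneSpectrum (𝓞 K), u ∉ Sg → u.valuation K δ ≠ 1 →
      (∀ W : HeightOneSpectrum (𝓞 F), dn K W = u → ∀ g : F ≃ₐ[K] F,
        H88OD.gq g • W = W → g = 1) ∧
      ∀ t : K, u.valuation K t ≤ 1 → u.valuation K (t ^ 3 + a * t + b) = 1) (c : SC L) :
    S.V (D * δ) c ↔ S.V D c := by
  have hD0 : algebraMap K F D ≠ 0 := (map_ne_zero _).2 hok.ne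
  have hDδ0 : algebraMap K F (D * δ) ≠ 0 := (map_ne_zero _).2 (mul_ne_zero hok.ne hδ0)
  have hquot : algebraMap K F D / algebraMap K F (D * δ) = (algebraMap K F δ)⁻¹ := by
    have h1 : algebraMap K F δ ≠ 0 := (map_ne_zero _).2 hδ0
    rw [map_mul]
    field_simp
  have key : ∀ v : HeightOneSpectrum (𝓞 F), c ∈ HH F L → (S.Lv (D * δ) v c ↔ S.Lv D v c) := by
    intro v hc
    rw [Lv_iff, Lv_iff]
    have hav : v.valuation F (algebraMap K F a) ≤ 1 := val_le (S.ha _)
    have hbv : v.valuation F (algebraMap K F b) ≤ 1 := val_le (S.hb _)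
    by_cases h1 : dn K v ∈ Sg
    · refine (H76OD.Wc_tw_iff _ hDδ0 hD0 ?_)
      rw [hquot, map_inv₀]
      refine IsSquare.inv ?_
      obtain ⟨r, hr⟩ := hsq _ h1
      have h2 : algebraMap F (v.adicCompletion F) (algebraMap K F δ) =
          (over_dn (K := K) v).map (algebraMap K ((dn K v).adicCompletion K) δ) :=
        (Pool.Agent.H10.Over.map_algebraMap _ _).symm
      rw [h2, hr, map_mul]
      exact ⟨_, rfl⟩
    · have h2 : v.valuation F 2 = 1 := by
        have := val_one (w := v) (hok.two _ h1)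
        rwa [map_ofNat] at this
      by_cases h3 : (dn K v).valuation K δ = 1
      · have hd : v.valuation F (4 * (algebraMap K F a) ^ 3 + 27 * (algebraMap K F b) ^ 2) = 1 := by
          have := val_one (w := v) (hok.dis _ h1)
          rwa [map_add, map_mul, map_mul, map_pow, map_pow, map_ofNat, map_ofNat] at this
        have hD : v.valuation F (algebraMap K F D) = 1 := val_one (hok.val _ h1)
        have hDδ : v.valuation F (algebraMap K F (D * δ)) = 1 := by
          apply val_one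
          rw [map_mul, hok.val _ h1, h3, one_mul]
        rw [H76OD.Wc_good S.cub v hav hbv h2 hd hDδ hc, H76OD.Wc_good S.cub v hav hbv h2 hd hD hc]
      · obtain ⟨hdec, hroot⟩ := hout _ h1 h3
        have hnr : H73P2.NoRootAt v (algebraMap K F a) (algebraMap K F b) := by
          refine ⟨1, algebraMap K F a, algebraMap K F b, one_ne_zero, ?_, ?_, hav, hbv, ?_⟩
          · rw [one_pow, one_mul]
          · rw [one_pow, one_mul]
          · exact noroot_up S.gal (hdec v rfl) (S.ha _) (S.hb _) hroot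
        have hnb := H36O2.Oi_nb S.cub hnr
        exact ⟨fun _ => Wc_all S.cub v hav hbv (dne_F S) h2 hnb hD0 hc,
          fun _ => Wc_all S.cub v hav hbv (dne_F S) h2 hnb hDδ0 hc⟩
  have keyr : ∀ s : F →+* ℝ, (S.Lr (D * δ) s c ↔ S.Lr D s c) := by
    intro s
    rw [Lr_iff, Lr_iff]
    refine H76OD.Wc_tw_real s hDδ0 hD0 ?_
    rw [hquot, map_inv₀]
    exact inv_pos.2 (hpos (s.comp (algebraMap K F)))
  constructor
  · intro h
    exact ⟨h.hh, fun v => (key v h.hh).1 (h.fin v), fun s => (keyr s).1 (h.inf s)⟩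
  · intro h
    exact ⟨h.hh, fun v => (key v h.hh).2 (h.fin v), fun s => (keyr s).2 (h.inf s)⟩

private theorem V_square {K F L : Type} [Field K] [NumberField K] [Field F] [NumberField F] [Field L]
    [NumberField L] [Algebra K F] [Algebra F L] {a b : K} {θ : L}
    (S : H88GX.Ext K F L a b θ) {D γ : K} (hD : D ≠ 0) (hγ0 : γ ≠ 0) (c : SC L) :
    S.V (D * γ ^ 2) c ↔ S.V D c := by
  have hD0 : algebraMap K F D ≠ 0 := (map_ne_zero _).2 hD
  have hDγ0 : algebraMap K F (D * γ ^ 2) ≠ 0 :=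
    (map_ne_zero _).2 (mul_ne_zero hD (pow_ne_zero _ hγ0))
  have hγF : algebraMap K F γ ≠ 0 := (map_ne_zero _).2 hγ0
  have hquot : algebraMap K F D / algebraMap K F (D * γ ^ 2) = ((algebraMap K F γ) ^ 2)⁻¹ := by
    rw [map_mul, map_pow]
    field_simp
  have key : ∀ v : HeightOneSpectrum (𝓞 F), (S.Lv (D * γ ^ 2) v c ↔ S.Lv D v c) := by
    intro v
    rw [Lv_iff, Lv_iff]
    refine (H76OD.Wc_tw_iff _ hDγ0 hD0 ?_)
    rw [hquot, map_inv₀, map_pow]
    exact IsSquare.inv ⟨_, pow_two _⟩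
  have keyr : ∀ s : F →+* ℝ, (S.Lr (D * γ ^ 2) s c ↔ S.Lr D s c) := by
    intro s
    rw [Lr_iff, Lr_iff]
    refine H76OD.Wc_tw_real s hDγ0 hD0 ?_
    rw [hquot, map_inv₀, map_pow]
    have h1 : s (algebraMap K F γ) ≠ 0 := (map_ne_zero _).2 hγF
    exact inv_pos.2 (by positivity)
  constructor
  · intro h
    exact ⟨h.hh, fun v => (key v).1 (h.fin v), fun s => (keyr s).1 (h.inf s)⟩
  · intro h
    exact ⟨h.hh, fun v => (key v).2 (h.fin v), fun s => (keyr s).2 (h.inf s)⟩

theorem V_fam {K F L : Type} [Field K] [NumberField K] [Field F] [NumberField F] [Field L]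
    [NumberField L] [Algebra K F] [Algebra F L] {a b : K} {θ : L}
    {Sg : Finset (HeightOneSpectrum (𝓞 K))} (S : H88GX.Ext K F L a b θ) {D : K} (hok : S.Ok D Sg)
    {δ γ : K} (hδ0 : δ ≠ 0) (hγ0 : γ ≠ 0)
    (hsq : ∀ u ∈ Sg, IsSquare (algebraMap K (u.adicCompletion K) δ))
    (hpos : ∀ s : K →+* ℝ, 0 < s δ)
    (hout : ∀ u : HeightOneSpectrum (𝓞 K), u ∉ Sg → u.valuation K δ ≠ 1 →
      (∀ W : HeightOneSpectrum (𝓞 F), dn K W = u → ∀ g : F ≃ₐ[K] F,
        H88OD.gq g • W = W → g = 1) ∧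
      ∀ t : K, u.valuation K t ≤ 1 → u.valuation K (t ^ 3 + a * t + b) = 1) (c : SC L) :
    S.V (D * δ * γ ^ 2) c ↔ S.V D c :=
  (V_square S (mul_ne_zero hok.ne hδ0) hγ0 c).trans (V_unit S hok hδ0 hsq hpos hout c)

end H30QC
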