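import Pool.Agent.H30.QC.Df
import Pool.Agent.H90.QC.Cm

/-!
ROW QC/A1: blocks. Proved by helper90 from `Pool.Agent.H90.QC.recip`.
-/

set_option autoImplicit false
open scoped Classical

namespace H30QC

open Pool.Agent.H85.OT Pool.Agent.H90.QC

/-- A dense set of primes has positive lower density among the primes. -/
theorem dense_posLower {P : Set ℕ} (hP : ∀ p ∈ P, p.Prime) (h : Dense P) :
    PosLower (fun p => p ∈ P) := by
  obtain ⟨c, hc, x₀, hx⟩ := h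
  refine ⟨c / 5, by positivity, max ⌈x₀⌉₊ 2, fun x hx0 => ?_⟩
  have hx1 : x₀ ≤ x := (Nat.le_ceil x₀).trans (by exact_mod_cast (le_max_left _ _).trans hx0)
  have hx2 : 2 ≤ x := (le_max_right _ _).trans hx0
  have h1 := hx x hx1
  have h2 := pi_up hx2
  have e : ({p : ℕ | p ∈ P ∧ (p : ℝ) ≤ x}.ncard : ℝ) = cnt (fun p => p ∈ P) x := by
    rw [cnt, ← Set.ncard_coe_finset]
    congr 2
    ext p
    simp only [Set.mem_ofPred_eq, Finset.coe_filter, Finset.mem_range]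
    constructor
    · rintro ⟨h3, h4⟩
      have h5 : p ≤ x := by exact_mod_cast h4
      exact ⟨by omega, hP p h3, h3⟩
    · rintro ⟨h3, _, h4⟩
      exact ⟨h4, by exact_mod_cast (show p ≤ x by omega)⟩
  rw [e] at h1
  refine le_trans ?_ h1
  calc c / 5 * (Nat.primeCounting x : ℝ) ≤ c / 5 * (5 * x / Real.log x) := by gcongr
    _ = c * (x / Real.log x) := by ring

theorem block {P : Set ℕ} (hP : ∀ p ∈ P, p.Prime) (h : Dense P) :
    ∃ c : ℝ, 0 < c ∧ ∃ M₀ : ℕ, ∀ M : ℕ, M₀ ≤ M →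
      c ≤ ∑ p ∈ (Finset.Ioc M (M ^ 2)).filter (fun p => p ∈ P), (1 : ℝ) / p := by
  obtain ⟨c, hc, M₀, _, h1⟩ := recip (dense_posLower hP h)
  refine ⟨c, hc, M₀, fun M hM => (h1 M hM).trans (le_of_eq ?_)⟩
  refine Finset.sum_congr ?_ fun _ _ => rfl
  ext p
  rw [mem_pr, Finset.mem_filter, Finset.mem_Ioc]
  constructor
  · rintro ⟨h2, _, h3⟩
    exact ⟨h2, h3⟩
  · rintro ⟨h2, h3⟩
    exact ⟨h2, hP p h3, h3⟩

end H30QC
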