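import Pool.Agent.H30.QC.Df
import Pool.Agent.H90.QC.Cm

/-!
ROW QC/A2: the harmonic sum over squarefree numbers with prime factors in `P` (helper90).
-/

set_option autoImplicit false
open scoped Classical

namespace H30QC

open Pool.Agent.H90.QC

theorem sm_eq (P : Set ℕ) (n : ℕ) : Sm P n = sq (fun p => p ∈ P) n := by
  ext m
  rw [mem_Sm, mem_sq, and_assoc]

theorem pr_eq {P : Set ℕ} (hP : ∀ p ∈ P, p.Prime) (a b : ℕ) :
    pr (fun p => p ∈ P) a b = (Finset.Ioc a b).filter (fun p => p ∈ P) := by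
  ext p
  rw [mem_pr, Finset.mem_filter, Finset.mem_Ioc]
  constructor
  · rintro ⟨h2, _, h3⟩
    exact ⟨h2, h3⟩
  · rintro ⟨h2, h3⟩
    exact ⟨h2, hP p h3, h3⟩

theorem harm {P : Set ℕ} (hP : ∀ p ∈ P, p.Prime)
    (h : ∃ c : ℝ, 0 < c ∧ ∃ M₀ : ℕ, ∀ M : ℕ, M₀ ≤ M →
      c ≤ ∑ p ∈ (Finset.Ioc M (M ^ 2)).filter (fun p => p ∈ P), (1 : ℝ) / p) :
    ∃ e : ℝ, 0 < e ∧ ∃ n₀ : ℕ, ∀ n : ℕ, n₀ ≤ n →
      Real.log n ^ e ≤ ∑ m ∈ Sm P n, (1 : ℝ) / m := by
  obtain ⟨c2, hc2, M1, hr1⟩ := h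
  obtain ⟨M0, hM0d⟩ : ∃ M0 : ℕ, M0 = max M1 2 := ⟨_, rfl⟩
  have hM0 : 2 ≤ M0 := hM0d ▸ le_max_right _ _
  have hr : ∀ M : ℕ, M0 ≤ M → c2 ≤ ∑ p ∈ pr (fun p => p ∈ P) M (M ^ 2), (1 : ℝ) / p := by
    intro M hM
    rw [pr_eq hP]
    exact hr1 M (((le_max_left _ _).trans hM0d.ge).trans hM)
  have hl3 : 0 < Real.log (3 : ℝ) := Real.log_pos (by norm_num)
  have hl2 : 0 < Real.log (1 + c2) := Real.log_pos (by linarith)
  have hM0' : (2 : ℝ) ≤ M0 := by exact_mod_cast hM0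
  have hlM0 : 0 < Real.log M0 := Real.log_pos (by linarith)
  obtain ⟨γ, hγd⟩ : ∃ γ : ℝ, γ = Real.log (1 + c2) / Real.log 3 := ⟨_, rfl⟩
  have hγ : 0 < γ := by rw [hγd]; positivity
  have key : ∀ M : ℕ, M0 ≤ M →
      (Real.log M / (3 * Real.log M0)) ^ γ ≤ Hs (fun p => p ∈ P) M := by
    intro M hM
    have ind : ∀ j : ℕ, (1 + c2) ^ j ≤ Hs (fun p => p ∈ P) (M0 ^ 3 ^ j) := by
      intro j
      induction j with
      | zero => simpa using one_le_Hs (P := fun p => p ∈ P) (by omega : 1 ≤ M0)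
      | succ j ih =>
        have h1 : M0 ≤ M0 ^ 3 ^ j := Nat.le_self_pow (by positivity) M0
        have h2 := Hs_cube (P := fun p => p ∈ P) (M := M0 ^ 3 ^ j) (by omega)
        have e : (M0 ^ 3 ^ j) ^ 3 = M0 ^ 3 ^ (j + 1) := by
          rw [← pow_mul, ← pow_succ]
        rw [e] at h2
        refine le_trans ?_ h2
        rw [pow_succ]
        have h3 := hr _ h1
        have h4 : 0 ≤ Hs (fun p => p ∈ P) (M0 ^ 3 ^ j) := Hs_nonneg _
        gcongr
    obtain ⟨j, hj⟩ : ∃ j, j = Nat.log 3 (Nat.log M0 M) := ⟨_, rfl⟩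
    have hL : 1 ≤ Nat.log M0 M := by
      have := Nat.log_pos (b := M0) (by omega) hM
      omega
    have h1 : 3 ^ j ≤ Nat.log M0 M := by
      rw [hj]
      exact Nat.pow_log_le_self 3 (by omega)
    have h2 : Nat.log M0 M < 3 ^ (j + 1) := by
      rw [hj]
      exact Nat.lt_pow_succ_log_self (by norm_num) _
    have h3 : M0 ^ 3 ^ j ≤ M :=
      (Nat.pow_le_pow_right (by omega) h1).trans (Nat.pow_log_le_self M0 (by omega))
    have h4 : Real.log M / (3 * Real.log M0) ≤ (3 : ℝ) ^ j := by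
      have h5 : M < M0 ^ (Nat.log M0 M + 1) := Nat.lt_pow_succ_log_self (by omega) M
      have h6 : Real.log M ≤ (Nat.log M0 M + 1 : ℝ) * Real.log M0 := by
        have h7 : (0 : ℝ) < M := by
          have : (M0 : ℝ) ≤ M := by exact_mod_cast hM
          linarith
        have : Real.log (M : ℝ) ≤ Real.log ((M0 : ℝ) ^ (Nat.log M0 M + 1)) :=
          Real.log_le_log h7 (by exact_mod_cast h5.le)
        rw [Real.log_pow] at this
        push_cast at this
        exact this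
      have h8 : (Nat.log M0 M + 1 : ℝ) ≤ 3 * 3 ^ j := by
        have : Nat.log M0 M + 1 ≤ 3 ^ (j + 1) := h2
        have h9 : ((Nat.log M0 M + 1 : ℕ) : ℝ) ≤ ((3 ^ (j + 1) : ℕ) : ℝ) := by exact_mod_cast this
        push_cast at h9
        rw [pow_succ] at h9
        linarith
      rw [div_le_iff₀ (by positivity)]
      calc Real.log M ≤ (Nat.log M0 M + 1 : ℝ) * Real.log M0 := h6
        _ ≤ (3 * 3 ^ j) * Real.log M0 := by gcongr
        _ = 3 ^ j * (3 * Real.log M0) := by ring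
    have hlM : 0 ≤ Real.log M := Real.log_natCast_nonneg M
    calc (Real.log M / (3 * Real.log M0)) ^ γ ≤ ((3 : ℝ) ^ j) ^ γ := by
          apply Real.rpow_le_rpow (by positivity) h4 hγ.le
      _ = (1 + c2) ^ j := by
          rw [← Real.rpow_natCast, ← Real.rpow_mul (by norm_num), mul_comm (j : ℝ),
            Real.rpow_mul (by norm_num), Real.rpow_natCast]
          congr 1
          rw [hγd, Real.rpow_def_of_pos (by norm_num), mul_div_cancel₀ _ hl3.ne',
            Real.exp_log (by linarith)]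
      _ ≤ Hs (fun p => p ∈ P) (M0 ^ 3 ^ j) := ind j
      _ ≤ Hs (fun p => p ∈ P) M := Hs_mono h3
  have t4 : Filter.Tendsto (fun Y : ℕ => (Real.log (Y : ℝ)) ^ (γ / 2)) Filter.atTop Filter.atTop :=
    (tendsto_rpow_atTop (by positivity)).comp
      (Real.tendsto_log_atTop.comp tendsto_natCast_atTop_atTop)
  obtain ⟨n1, hn1⟩ := Filter.eventually_atTop.1
    (t4.eventually (Filter.eventually_ge_atTop ((3 * Real.log M0) ^ γ)))
  refine ⟨γ / 2, by positivity, max M0 n1, fun n hn => ?_⟩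
  have h1 := key n ((le_max_left _ _).trans hn)
  have h2 := hn1 n ((le_max_right _ _).trans hn)
  have hln : 0 ≤ Real.log n := Real.log_natCast_nonneg n
  rw [sm_eq]
  refine le_trans ?_ h1
  rw [Real.div_rpow hln (by positivity), le_div_iff₀ (by positivity)]
  have h3 : 0 < Real.log n := by
    apply Real.log_pos
    have : (M0 : ℝ) ≤ n := by exact_mod_cast (le_max_left _ _).trans hn
    linarith
  calc Real.log n ^ (γ / 2) * (3 * Real.log M0) ^ γ ≤ Real.log n ^ (γ / 2) * Real.log n ^ (γ / 2) := by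
        gcongr
    _ = Real.log n ^ γ := by
        rw [← Real.rpow_add h3]
        congr 1
        ring

end H30QC
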