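import Pool.Agent.H30.QC.A1
import Pool.Agent.H30.QC.A2
import Pool.Agent.H90.QC.Co

/-!
ROW QC/A3: the number of squarefree numbers with prime factors in a dense set of primes (helper90).
-/

set_option autoImplicit false
open scoped Classical

namespace H30QC

open Pool.Agent.H90.QC

theorem count {P : Set ℕ} (hP : ∀ p ∈ P, p.Prime) (h : Dense P) :
    ∃ e : ℝ, 0 < e ∧ ∃ Y₀ : ℝ, ∀ Y : ℝ, Y₀ ≤ Y →
      Y / Real.log Y ^ (1 - e) ≤ ((Sm P ⌊Y⌋₊).card : ℝ) := by
  obtain ⟨c1, hc1, Y1, h1⟩ := Pool.Agent.H90.QC.count (dense_posLower hP h)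
  obtain ⟨c, hcd⟩ : ∃ c : ℝ, c = min c1 1 := ⟨_, rfl⟩
  have hc : 0 < c := by rw [hcd]; exact lt_min hc1 one_pos
  have hcc : c ≤ c1 := hcd ▸ min_le_left _ _
  have hc2 : c ≤ 1 := hcd ▸ min_le_right _ _
  have t4 : Filter.Tendsto (fun Y : ℝ => (Real.log Y) ^ (c / 2)) Filter.atTop Filter.atTop :=
    (tendsto_rpow_atTop (by positivity)).comp Real.tendsto_log_atTop
  obtain ⟨y1, hy1⟩ := Filter.eventually_atTop.1
    ((t4.eventually (Filter.eventually_ge_atTop 2)).and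
      ((Real.tendsto_log_atTop.eventually (Filter.eventually_ge_atTop 2)).and
        (Filter.eventually_ge_atTop (2 * (Y1 : ℝ) + 8))))
  refine ⟨c / 2, by positivity, y1, fun Y hY => ?_⟩
  obtain ⟨a1, a2, a3⟩ := hy1 Y hY
  have hY0 : (8 : ℝ) ≤ Y := by
    have : (0 : ℝ) ≤ Y1 := by positivity
    linarith
  obtain ⟨N, hN⟩ : ∃ N : ℕ, N = ⌊Y⌋₊ := ⟨_, rfl⟩
  have hN1 : (N : ℝ) ≤ Y := by
    rw [hN]
    exact Nat.floor_le (by linarith)
  have hN2 : Y < N + 1 := by
    rw [hN]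
    exact Nat.lt_floor_add_one _
  have hN3 : Y / 2 ≤ N := by linarith
  have hNY : Y1 ≤ N := by
    have : (Y1 : ℝ) ≤ N := by linarith
    exact_mod_cast this
  have h2 := h1 N hNY
  rw [← hN, sm_eq]
  refine le_trans ?_ h2
  have hN4 : (0 : ℝ) < N := by linarith
  have hlN : 1 ≤ Real.log N := by
    have h3 : Real.log (Y / 2) ≤ Real.log N := Real.log_le_log (by linarith) hN3
    rw [Real.log_div (by linarith) (by norm_num)] at h3
    have := Real.log_two_lt_d9
    linarith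
  have hlNY : Real.log N ≤ Real.log Y := Real.log_le_log hN4 hN1
  have hlY : 0 < Real.log Y := by linarith
  have b1 : Real.log N ^ (1 - c1) ≤ Real.log Y ^ (1 - c) := by
    calc Real.log N ^ (1 - c1) ≤ Real.log N ^ (1 - c) :=
          Real.rpow_le_rpow_of_exponent_le hlN (by linarith)
      _ ≤ Real.log Y ^ (1 - c) := Real.rpow_le_rpow (by linarith) hlNY (by linarith)
  have b2 : 2 * Real.log Y ^ (1 - c) ≤ Real.log Y ^ (1 - c / 2) := by
    have e : Real.log Y ^ (1 - c / 2) = Real.log Y ^ (c / 2) * Real.log Y ^ (1 - c) := by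
      rw [← Real.rpow_add hlY]
      congr 1
      ring
    rw [e]
    gcongr
  have b3 : 0 < Real.log N ^ (1 - c1) := Real.rpow_pos_of_pos (by linarith) _
  have b4 : 0 < Real.log Y ^ (1 - c / 2) := Real.rpow_pos_of_pos hlY _
  have b5 : 0 < Real.log Y ^ (1 - c) := Real.rpow_pos_of_pos hlY _
  calc Y / Real.log Y ^ (1 - c / 2) ≤ Y / (2 * Real.log Y ^ (1 - c)) := by gcongr
    _ = (Y / 2) / Real.log Y ^ (1 - c) := by field_simp
    _ ≤ N / Real.log Y ^ (1 - c) := by gcongr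
    _ ≤ N / Real.log N ^ (1 - c1) := by gcongr

end H30QC
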