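import Pool.Agent.H30.QC.Df
import Pool.Agent.H7.OR.Up

/-!
ROW QC/B1 (about 80 lines): the rational primes `p` below a place with Frobenius element generating `⟨σ⟩` are dense.

PROOF. Copy the proof of `Pool.Agent.H7.OR.frob_density` (Pool/Agent/H7/OR/Up.lean, line 133): `key`, `hcount` (from `sm_count`), `e1`; the finite set `B` costs at most `B.ncard` primes `p`, `B.ncard ≤ (c/2) (x / log x)` for large `x` (`hlim` there). No division by the number of places is needed here (`pl_count` is not used): we count rational primes `p`.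
-/

set_option autoImplicit false
open scoped Classical

open NumberField IsDedekindDomain

namespace H30QC

open Pool.Agent.H7.OR Pool.Agent.H7.OR.UpAux in
theorem frob_dense {K L : Type} [Field K] [NumberField K] [Field L] [NumberField L] [Algebra K L]
    [IsGalois K L] (σ : L ≃ₐ[K] L) (B : Set (HeightOneSpectrum (𝓞 K))) (hB : B.Finite) :
    Dense {p : ℕ | p.Prime ∧ ∃ v : HeightOneSpectrum (𝓞 K), v ∉ B ∧
      Pool.Agent.H7.OR.plNorm v = p ∧ ∃ (Q : Ideal (𝓞 L)) (φ : L ≃ₐ[K] L),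
        Pool.Agent.H7.OR.IsFrob v Q φ ∧ Subgroup.zpowers φ = Subgroup.zpowers σ} := by
  obtain ⟨M, iF, iN, iA, hG⟩ := Pool.Agent.H7.OR.galois_closure L
  let _ : Algebra K M := ((algebraMap L M).comp (algebraMap K L)).toAlgebra
  have : IsScalarTower K L M := IsScalarTower.of_algebraMap_eq fun _ => rfl
  have : IsScalarTower ℚ K M := IsScalarTower.of_algebraMap_eq fun _ => by simp
  have : Normal K M := Normal.tower_top_of_normal ℚ K M
  obtain ⟨σ', hσ'⟩ := AlgEquiv.restrictNormalHom_surjective (F := K) (K₁ := L) M σ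
  obtain ⟨c, hc, hcount⟩ := sm_count M (rs K M σ')
  have key : ∀ p : ℕ, FrobP M (rs K M σ') p → ∃ v : HeightOneSpectrum (𝓞 K), plNorm v = p ∧
      ∃ (Q : Ideal (𝓞 L)) (φ : L ≃ₐ[K] L), IsFrob v Q φ ∧
        Subgroup.zpowers φ = Subgroup.zpowers σ := by
    rintro p ⟨hp, P, φ, hP, hpP, hφ, hz⟩
    obtain ⟨a, ha⟩ : φ ∈ Subgroup.zpowers (rs K M σ') := by
      rw [← hz]; exact Subgroup.mem_zpowers φ
    have hφ' : rs K M (σ' ^ a) = φ := by rw [map_zpow]; exact ha
    have hzz : Subgroup.zpowers (σ' ^ a) = Subgroup.zpowers σ' := by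
      apply Subgroup.map_injective (rs_inj (K := K) (M := M))
      rw [MonoidHom.map_zpowers, MonoidHom.map_zpowers, hφ', hz]
    have hfix : ∀ y : 𝓞 K, φ • (algebraMap (𝓞 K) (𝓞 M) y) = algebraMap (𝓞 K) (𝓞 M) y := by
      intro y
      apply RingOfIntegers.ext
      rw [← hφ']
      change (σ' ^ a) (algebraMap K M (y : K)) = algebraMap K M (y : K)
      exact (σ' ^ a).commutes _
    have hv := plc_norm (K := K) P hP p hp hpP (fun y => by
      rw [Ideal.mem_comap, map_sub, map_pow]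
      have := hφ (algebraMap (𝓞 K) (𝓞 M) y)
      rwa [hfix] at this)
    refine ⟨plc (K := K) P hP p hp hpP, hv, P.comap (algebraMap (𝓞 L) (𝓞 M)),
      AlgEquiv.restrictNormalHom L (σ' ^ a), ⟨Ideal.comap_isPrime _ _, ?_, ?_⟩, ?_⟩
    · intro y
      constructor
      · intro hy
        refine ⟨algebraMap (𝓞 K) (𝓞 L) y, ?_, rfl⟩
        rw [Ideal.mem_comap]
        exact hy
      · rintro ⟨b, hb, hby⟩
        have hb' : b = algebraMap (𝓞 K) (𝓞 L) y := RingOfIntegers.ext hby
        subst hb'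
        exact hb
    · intro x y hxy
      rw [hv, Ideal.mem_comap, map_sub, map_pow]
      have h1 : algebraMap (𝓞 L) (𝓞 M) y = φ • algebraMap (𝓞 L) (𝓞 M) x := by
        apply RingOfIntegers.ext
        rw [← hφ']
        change algebraMap L M (y : L) = (σ' ^ a) (algebraMap L M (x : L))
        rw [hxy]
        exact AlgEquiv.restrictNormal_commutes (σ' ^ a) L (x : L)
      rw [h1]
      exact hφ _
    · rw [← MonoidHom.map_zpowers, hzz, MonoidHom.map_zpowers, hσ']
  have hlim : Filter.Tendsto (fun x : ℝ => x / Real.log x) Filter.atTop Filter.atTop := by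
    have h1 : Filter.Tendsto (fun x : ℝ => Real.log x / x) Filter.atTop (nhds 0) :=
      Real.isLittleO_log_id_atTop.tendsto_div_nhds_zero
    have h2 : Filter.Tendsto (fun x : ℝ => Real.log x / x) Filter.atTop
        (nhdsWithin 0 (Set.Ioi 0)) := by
      rw [tendsto_nhdsWithin_iff]
      refine ⟨h1, ?_⟩
      filter_upwards [Filter.eventually_gt_atTop (1 : ℝ)] with x hx
      exact div_pos (Real.log_pos hx) (by linarith)
    have h3 := h2.inv_tendsto_nhdsGT_zero
    refine h3.congr fun x => ?_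
    rw [Pi.inv_apply, inv_div]
  refine ⟨c / 2, by positivity, ?_⟩
  rw [← Filter.eventually_atTop]
  filter_upwards [hcount, Filter.eventually_ge_atTop (2 : ℝ),
    hlim.eventually_ge_atTop (2 * (B.ncard : ℝ) / c)] with x h1 h2 h3
  set S : Set ℕ := {p : ℕ | p.Prime ∧ ∃ v : HeightOneSpectrum (𝓞 K), v ∉ B ∧
      plNorm v = p ∧ ∃ (Q : Ideal (𝓞 L)) (φ : L ≃ₐ[K] L),
        IsFrob v Q φ ∧ Subgroup.zpowers φ = Subgroup.zpowers σ} with hS
  have hfS : {p : ℕ | p ∈ S ∧ (p : ℝ) ≤ x}.Finite := by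
    refine (Set.finite_Iic ⌊x⌋₊).subset fun p hp => ?_
    exact Nat.le_floor hp.2
  have e1 : ((EK75.prLe x).filter (fun p => FrobP M (rs K M σ') p)).card ≤
      {p : ℕ | p ∈ S ∧ (p : ℝ) ≤ x}.ncard + B.ncard := by
    rw [← Set.ncard_coe_finset]
    refine (Set.ncard_le_ncard ?_ (hfS.union (hB.image plNorm))).trans
      ((Set.ncard_union_le _ _).trans (Nat.add_le_add_left (Set.ncard_image_le hB) _))
    intro p hp
    rw [Finset.mem_coe, Finset.mem_filter] at hp
    obtain ⟨hp1, hp2⟩ := hp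
    obtain ⟨v, hv, hv2⟩ := key p hp2
    by_cases hvB : v ∈ B
    · exact Or.inr ⟨v, hvB, hv⟩
    · refine Or.inl ⟨⟨hp2.1, v, hvB, hv, hv2⟩, ?_⟩
      unfold EK75.prLe at hp1
      rw [Finset.mem_filter, Finset.mem_range] at hp1
      exact (Nat.le_floor_iff (by linarith)).1 (by omega)
  have e3 : (((EK75.prLe x).filter (fun p => FrobP M (rs K M σ') p)).card : ℝ) ≤
      ({p : ℕ | p ∈ S ∧ (p : ℝ) ≤ x}.ncard : ℝ) + B.ncard := by
    exact_mod_cast e1
  have e5 : (B.ncard : ℝ) ≤ c / 2 * (x / Real.log x) := by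
    rw [div_le_iff₀ hc] at h3
    linarith
  have e6 : c * (x / Real.log x) ≤
      (((EK75.prLe x).filter (fun p => FrobP M (rs K M σ') p)).card : ℝ) := by
    convert h1
  change c / 2 * (x / Real.log x) ≤ ({p : ℕ | p ∈ S ∧ (p : ℝ) ≤ x}.ncard : ℝ)
  linarith

end H30QC
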