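import Pool.Agent.H26.OD.Jd

/-!
ROW QC/B2 (about 120 lines): an automorphism which fixes `N` and square roots, and moves all roots of all cubics.

PROOF. This is `exists_tau` (Pool/Agent/H26/OD/Jc.lean) without the special index `i`; copy `Jc_field` (private there) with `M := N`, `A j := algebraMap K N (a j)`, `B j := algebraMap K N (b j)`, `D' := ` the image of `D` in `𝓞 N` (`algebraMap (𝓞 K) (𝓞 N)`); `s d := s' (algebraMap (𝓞 K) (𝓞 N) d)`. `Big K Ω (fun j => (a j : K)) (fun j => (b j : K)) r`.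
For each `k` `Big.cycle` (Jb) gives `h_k` fixing `N` and the roots of the cubics `j ≠ k` and moving all roots of the cubic `k`; `h_k (s d) = ± s d` because `(s d)^2` is in `K`, so `h_k^4` fixes `s d`; `h_k^4 = h_k` on the roots of `k` (`Big.cube`). By induction on a finset `J` of indices (copy `Jc_rho`, without the condition `i ∉ J`): there is `ρ_J` fixing `N`, all `s d` (`d ∈ D`),
the roots of the cubics `j ∉ J`, and moving all roots of the cubics `k ∈ J`: `ρ_{insert k J} := ρ_J * h_k^4`. Take `J = univ`.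
-/

set_option autoImplicit false
set_option linter.unusedSectionVars false
open scoped Classical

open NumberField IsDedekindDomain

namespace H30QC

private theorem B2_split {M E : Type} [Field M] [Field E] [Algebra M E] (A B : M)
    {P : Polynomial M} (hP : P ≠ 0)
    (hdvd : (Polynomial.X ^ 3 + Polynomial.C A * Polynomial.X + Polynomial.C B : Polynomial M) ∣ P)
    (hs : (P.map (algebraMap M E)).Splits) :
    ∃ r : Fin 3 → E, ∀ x : E, x ^ 3 + algebraMap M E A * x + algebraMap M E B =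
      (x - r 0) * (x - r 1) * (x - r 2) := by
  have hf3 : (Polynomial.X ^ 3 + Polynomial.C A * Polynomial.X + Polynomial.C B :
      Polynomial M).natDegree = 3 := by
    compute_degree!
  have hfm : (Polynomial.X ^ 3 + Polynomial.C A * Polynomial.X + Polynomial.C B :
      Polynomial M).Monic := by
    monicity!
  set f : Polynomial M := Polynomial.X ^ 3 + Polynomial.C A * Polynomial.X + Polynomial.C B with hf
  have hsp : (f.map (algebraMap M E)).Splits :=
    hs.of_dvd (Polynomial.map_ne_zero hP) (Polynomial.map_dvd _ hdvd)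
  have hfF : (f.map (algebraMap M E)).natDegree = 3 := by
    rw [hfm.natDegree_map, hf3]
  have hcard : (f.map (algebraMap M E)).roots.card = 3 := by
    rw [← hsp.natDegree_eq_card_roots, hfF]
  obtain ⟨r, s, u, hrs⟩ := Multiset.card_eq_three.mp hcard
  refine ⟨![r, s, u], fun x => ?_⟩
  have h := hsp.eval_eq_prod_roots_of_monic (hfm.map _) x
  rw [hrs, hf] at h
  simp only [Polynomial.map_add, Polynomial.map_mul, Polynomial.map_pow, Polynomial.map_X,
    Polynomial.map_C, Polynomial.eval_add, Polynomial.eval_mul, Polynomial.eval_pow,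
    Polynomial.eval_X, Polynomial.eval_C] at h
  rw [h]
  simp [mul_assoc]

private theorem B2_field {K M : Type} [Field K] [NumberField K] [Field M] [NumberField M]
    [Algebra K M] {ι : Type} [Fintype ι] (A B : ι → M) (D : Finset (𝓞 M)) :
    ∃ (Ω : Type) (_ : Field Ω) (_ : NumberField Ω) (_ : Algebra K Ω) (_ : Algebra M Ω)
      (_ : IsScalarTower K M Ω) (_ : IsGalois K Ω) (s : 𝓞 M → Ω) (r : ι → Fin 3 → Ω),
      (∀ d ∈ D, s d ^ 2 = algebraMap M Ω (d : M)) ∧
      ∀ (j : ι) (x : Ω), x ^ 3 + algebraMap M Ω (A j) * x + algebraMap M Ω (B j) =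
        (x - r j 0) * (x - r j 1) * (x - r j 2) := by
  obtain ⟨P, hPd⟩ : ∃ P : Polynomial M, P = ∏ j, (Polynomial.X ^ 3 +
    Polynomial.C (A j) * Polynomial.X + Polynomial.C (B j)) := ⟨_, rfl⟩
  have hP : P ≠ 0 := by
    rw [hPd]
    refine Finset.prod_ne_zero_iff.2 fun j _ => Polynomial.Monic.ne_zero ?_
    monicity!
  have hN1 : NumberField P.SplittingField :=
    { to_charZero := charZero_of_injective_algebraMap (algebraMap M P.SplittingField).injective
      to_finiteDimensional := by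
        have h1 : FiniteDimensional M P.SplittingField := inferInstance
        have h2 : CharZero P.SplittingField :=
          charZero_of_injective_algebraMap (algebraMap M P.SplittingField).injective
        exact Module.Finite.trans M _ }
  obtain ⟨D1, hD1⟩ : ∃ D1 : Finset (𝓞 P.SplittingField),
    D1 = D.image (algebraMap (𝓞 M) (𝓞 P.SplittingField)) := ⟨_, rfl⟩
  obtain ⟨Ω, i1, i2, i3, i4, i5, i6, s, hs⟩ := H76OD.exists_fieldM (K := K) P.SplittingField D1
  let hA : Algebra M Ω := ((algebraMap P.SplittingField Ω).comp (algebraMap M P.SplittingField)).toAlgebra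
  have hmap : ∀ x : M, algebraMap M Ω x = algebraMap P.SplittingField Ω (algebraMap M P.SplittingField x) :=
    fun _ => rfl
  have hT : IsScalarTower K M Ω := IsScalarTower.of_algebraMap_eq fun x => by
    rw [hmap, ← IsScalarTower.algebraMap_apply K M P.SplittingField,
      ← IsScalarTower.algebraMap_apply K P.SplittingField Ω]
  have hr : ∀ j, ∃ r : Fin 3 → Ω, ∀ x : Ω,
      x ^ 3 + algebraMap M Ω (A j) * x + algebraMap M Ω (B j) = (x - r 0) * (x - r 1) * (x - r 2) :=
    fun j => B2_split (A j) (B j) hP (by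
      rw [hPd]
      exact Finset.dvd_prod_of_mem _ (Finset.mem_univ j)) (by
      have h1 := (Polynomial.SplittingField.splits P).map (algebraMap P.SplittingField Ω)
      rw [Polynomial.map_map] at h1
      exact h1)
  choose r hr using hr
  refine ⟨Ω, i1, i2, i3, hA, hT, i6, fun d => s (algebraMap (𝓞 M) (𝓞 P.SplittingField) d),
    r, fun d hd => ?_, hr⟩
  have h := hs (algebraMap (𝓞 M) (𝓞 P.SplittingField) d) (by
    rw [hD1]
    exact Finset.mem_image_of_mem _ hd)
  rw [h, hmap]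
  rfl

private theorem B2_rho {K M Ω ι : Type} [Field K] [CharZero K] [Field M] [Field Ω] [Algebra K Ω]
    [Algebra M Ω] [FiniteDimensional K Ω] {a b : ι → K} {r : ι → Fin 3 → Ω} (B : H26OD.Big K Ω a b r)
    (D : Set Ω) (hD : ∀ y ∈ D, ∃ x : M, y ^ 2 = algebraMap M Ω x)
    (hh : ∀ k, ∃ h : Ω ≃ₐ[K] Ω, (∀ x : M, h (algebraMap M Ω x) = algebraMap M Ω x) ∧
      (∀ j, j ≠ k → ∀ m, h (r j m) = r j m) ∧ (∀ m, h (r k m) ≠ r k m) ∧
      ∀ m, h (h (h (r k m))) = r k m) (J : Finset ι) :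
    ∃ ρ : Ω ≃ₐ[K] Ω, (∀ x : M, ρ (algebraMap M Ω x) = algebraMap M Ω x) ∧ (∀ y ∈ D, ρ y = y) ∧
      (∀ j, j ∉ J → ∀ m, ρ (r j m) = r j m) ∧ ∀ k ∈ J, ∀ m, ρ (r k m) ≠ r k m := by
  induction J using Finset.induction_on with
  | empty =>
    exact ⟨AlgEquiv.refl, fun _ => rfl, fun _ _ => rfl, fun _ _ _ => rfl, fun k hk => by simp at hk⟩
  | insert k J hk ih =>
    obtain ⟨ρ, h1, h2, h3, h4⟩ := ih
    obtain ⟨h, g1, g2, g3, g4⟩ := hh k
    have hfour : ∀ y ∈ D, h (h (h (h y))) = y := by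
      intro y hy
      obtain ⟨x, hx⟩ := hD y hy
      have e1 : h y ^ 2 = y ^ 2 := by rw [← map_pow, hx, g1]
      rcases sq_eq_sq_iff_eq_or_eq_neg.1 e1 with e2 | e2
      · rw [e2, e2, e2, e2]
      · simp only [e2, map_neg, neg_neg]
    refine ⟨h.trans (h.trans (h.trans (h.trans ρ))), fun x => ?_, fun y hy => ?_, fun j hj m => ?_,
      fun k' hk' m => ?_⟩
    · change ρ (h (h (h (h (algebraMap M Ω x))))) = _
      rw [g1, g1, g1, g1, h1]
    · change ρ (h (h (h (h y)))) = y
      rw [hfour y hy, h2 y hy]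
    · rw [Finset.mem_insert, not_or] at hj
      change ρ (h (h (h (h (r j m))))) = _
      rw [g2 j hj.1, g2 j hj.1, g2 j hj.1, g2 j hj.1, h3 j hj.2]
    · change ρ (h (h (h (h (r k' m))))) ≠ _
      rcases Finset.mem_insert.1 hk' with e | e
      · rw [e, g4]
        obtain ⟨m', hm'⟩ := B.perm h k m
        rw [hm', h3 k hk, ← hm']
        exact g3 m
      · have hne : k' ≠ k := by
          rintro rfl
          exact hk e
        rw [g2 k' hne, g2 k' hne, g2 k' hne, g2 k' hne]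
        exact h4 k' e m

theorem exists_sig {K N : Type} [Field K] [NumberField K] [Field N] [NumberField N]
    [Algebra K N] [IsGalois K N] {ι : Type} [Fintype ι] (a b : ι → 𝓞 K)
    (hir : ∀ (j : ι) (t : K), t ^ 3 + (a j : K) * t + (b j : K) ≠ 0)
    (hind : ∀ I : Finset ι, I.Nonempty →
      ¬ IsSquare (algebraMap K N (∏ j ∈ I, H26OD.dd3 (a j : K) (b j : K))))
    (D : Finset (𝓞 K)) (hD : ∀ d ∈ D, d ≠ 0) :
    ∃ (Ω : Type) (_ : Field Ω) (_ : NumberField Ω) (_ : Algebra K Ω) (_ : Algebra N Ω)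
      (_ : IsScalarTower K N Ω) (_ : IsGalois K Ω) (s : 𝓞 K → Ω) (r : ι → Fin 3 → Ω)
      (τ : Ω ≃ₐ[K] Ω),
      (∀ d ∈ D, s d ^ 2 = algebraMap K Ω (d : K)) ∧
      (∀ (j : ι) (x : Ω), x ^ 3 + algebraMap K Ω (a j : K) * x + algebraMap K Ω (b j : K) =
        (x - r j 0) * (x - r j 1) * (x - r j 2)) ∧
      (∀ x : N, τ (algebraMap N Ω x) = algebraMap N Ω x) ∧
      (∀ d ∈ D, τ (s d) = s d) ∧
      ∀ j m, τ (r j m) ≠ r j m := by
  have hdne : ∀ j, H26OD.dd3 (a j : K) (b j : K) ≠ 0 := by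
    intro j h
    apply hind {j} (Finset.singleton_nonempty j)
    rw [Finset.prod_singleton, h, map_zero]
    exact ⟨0, (mul_zero 0).symm⟩
  obtain ⟨Ω, i1, i2, i3, i4, i5, i6, s, r, hs, hr⟩ := B2_field (K := K) (M := N)
    (fun j => algebraMap K N (a j : K)) (fun j => algebraMap K N (b j : K))
    (D.image (algebraMap (𝓞 K) (𝓞 N)))
  have hr' : ∀ (j : ι) (x : Ω), x ^ 3 + algebraMap K Ω (a j : K) * x + algebraMap K Ω (b j : K) =
      (x - r j 0) * (x - r j 1) * (x - r j 2) := by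
    intro j x
    rw [IsScalarTower.algebraMap_apply K N Ω, IsScalarTower.algebraMap_apply K N Ω]
    exact hr j x
  have hs' : ∀ d ∈ D, s (algebraMap (𝓞 K) (𝓞 N) d) ^ 2 =
      algebraMap N Ω (algebraMap K N (d : K)) := fun d hd =>
    hs (algebraMap (𝓞 K) (𝓞 N) d) (Finset.mem_image_of_mem _ hd)
  have B : H26OD.Big K Ω (fun j => (a j : K)) (fun j => (b j : K)) r := ⟨i6, hr'⟩
  have hfd : FiniteDimensional K Ω := Module.Finite.of_restrictScalars_finite ℚ K Ω
  have hh : ∀ k, ∃ h : Ω ≃ₐ[K] Ω,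
      (∀ x : N, h (algebraMap N Ω x) = algebraMap N Ω x) ∧
      (∀ j, j ≠ k → ∀ m, h (r j m) = r j m) ∧ (∀ m, h (r k m) ≠ r k m) ∧
      ∀ m, h (h (h (r k m))) = r k m := by
    intro k
    obtain ⟨h, h1, h2, h3⟩ := B.cycle (N := N) hir hind k
    exact ⟨h, h1, h2, h3, fun m => B.cube (hdne k) h3 m⟩
  obtain ⟨ρ, p1, p2, p3, p4⟩ := B2_rho (M := N) B
    {y | ∃ d ∈ D, y = s (algebraMap (𝓞 K) (𝓞 N) d)} (by
    rintro y ⟨d, hd, rfl⟩
    exact ⟨algebraMap K N (d : K), hs' d hd⟩) hh Finset.univ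
  refine ⟨Ω, i1, i2, i3, i4, i5, i6, fun d => s (algebraMap (𝓞 K) (𝓞 N) d), r, ρ, fun d hd => ?_,
    hr', p1, fun d hd => p2 _ ⟨d, hd, rfl⟩, fun j m => p4 j (Finset.mem_univ j) m⟩
  rw [IsScalarTower.algebraMap_apply K N Ω]
  exact hs' d hd

end H30QC
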