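import Pool.Agent.H26.OD.Jd
import Pool.Agent.H26.OD.Ri
import Pool.Agent.H30.MQ.Cn

/-!
ROW QC/B3 (about 110 lines): primes whose Frobenius element is trivial on `N` split completely in `N` (outside a finite set).

PROOF. The argument is in `rich_J` (Pool/Agent/H88/GX/Je.lean, lines 455 to 500, and `Je_conj` there, private: copy). For `s : N ≃ₐ[K] N`, `s ≠ 1`, choose `X s : 𝓞 N` with `s • X s ≠ X s`; `B := ` the set of `v` such that some place `W` of `N` above `v` contains `s • X s - X s` for some `s ≠ 1` (finite: `H30MQ.fin_mem`, image under `dn K`).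
Let `v ∉ B`, `g` a Frobenius element over `v` which is trivial on `N`, with `w` (place of `Ω`) from `H30MQ.int_of_frob` (Pool/Agent/H30/MQ/Cn.lean): every `x : 𝓞 N` satisfies `n - x ∈ W₀` for some `n : 𝓞 K`, `W₀ := dn N w` (apply it to `algebraMap (𝓞 N) (𝓞 Ω) x`, `g • _ = _` by hypothesis; `dn K W₀ = v`: `hw.over`).
If `dn K W = v` and `gq g' • W = W`: conjugate to `W₀` (Je_conj): `k g'⁻¹ k⁻¹ =: s` maps `W₀` to itself; if `s ≠ 1` then with `n - X s ∈ W₀` also `n - s • X s ∈ W₀`, so `s • X s - X s ∈ W₀`: `v ∈ B`. Contradiction. So `g' = 1`.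
-/

set_option autoImplicit false
set_option linter.unusedSectionVars false
open scoped Classical

open NumberField IsDedekindDomain Pool.Agent.H42.PC

namespace H30QC

open H76PP (dn)
open H88OD (gq)

/-- Places above the same place are conjugate. -/
private theorem B3_conj {K N : Type} [Field K] [NumberField K] [Field N] [NumberField N]
    [Algebra K N] [IsGalois K N] {W W' : HeightOneSpectrum (𝓞 N)} (h : dn K W' = dn K W) :
    ∃ g : N ≃ₐ[K] N, ∀ x : 𝓞 N, x ∈ W'.asIdeal ↔ g • x ∈ W.asIdeal := by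
  have hp : (dn K W).asIdeal = W.asIdeal.comap (algebraMap (𝓞 K) (𝓞 N)) := rfl
  have hp' : (dn K W).asIdeal = W'.asIdeal.comap (algebraMap (𝓞 K) (𝓞 N)) := by
    rw [← h]
    rfl
  have i1 : W.asIdeal.IsPrime := W.isPrime
  have i2 : W'.asIdeal.IsPrime := W'.isPrime
  have i3 : W.asIdeal.LiesOver (dn K W).asIdeal := ⟨hp⟩
  have i4 : W'.asIdeal.LiesOver (dn K W).asIdeal := ⟨hp'⟩
  obtain ⟨g, hg⟩ := Ideal.exists_smul_eq_of_isGaloisGroup (dn K W).asIdeal W'.asIdeal W.asIdeal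
    (N ≃ₐ[K] N)
  refine ⟨g, fun x => ?_⟩
  rw [← hg]
  exact Ideal.smul_mem_pointwise_smul_iff.symm

theorem zs_frob {K N Ω : Type} [Field K] [NumberField K] [Field N] [NumberField N] [Field Ω]
    [NumberField Ω] [Algebra K N] [Algebra K Ω] [Algebra N Ω] [IsScalarTower K N Ω]
    [IsGalois K N] [IsGalois K Ω] :
    ∃ B : Set (HeightOneSpectrum (𝓞 K)), B.Finite ∧ ∀ (v : HeightOneSpectrum (𝓞 K))
      (g : Ω ≃ₐ[K] Ω), v ∉ B → (∀ x : N, g (algebraMap N Ω x) = algebraMap N Ω x) →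
      IsFr K Ω v g → v ∈ H26OD.Zs K N := by
  have hmove : ∀ g : N ≃ₐ[K] N, g ≠ 1 → ∃ x : 𝓞 N, g • x - x ≠ 0 := by
    intro g hg
    by_contra hcon
    push Not at hcon
    apply hg
    apply AlgEquiv.ext
    intro y
    obtain ⟨α, β, -, hxy⟩ := IsFractionRing.div_surjective (A := 𝓞 N) y
    have h1 : ∀ z : 𝓞 N, g (z : N) = (z : N) := by
      intro z
      have h2 := sub_eq_zero.1 (hcon z)
      have h3 := congrArg (fun t : 𝓞 N => (t : N)) h2
      exact h3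
    change g y = y
    rw [← hxy, map_div₀]
    exact congrArg₂ (· / ·) (h1 α) (h1 β)
  choose! X hX using hmove
  have hfinK : ∀ x : 𝓞 N, x ≠ 0 → {v : HeightOneSpectrum (𝓞 K) |
      ∃ w : HeightOneSpectrum (𝓞 N), dn K w = v ∧ x ∈ w.asIdeal}.Finite := by
    intro x hx
    refine ((H30MQ.fin_mem hx).image (dn K)).subset ?_
    rintro v ⟨w, rfl, hw⟩
    exact ⟨w, hw, rfl⟩
  refine ⟨⋃ g : {g : N ≃ₐ[K] N // g ≠ 1}, {v : HeightOneSpectrum (𝓞 K) |
        ∃ w : HeightOneSpectrum (𝓞 N), dn K w = v ∧ g.1 • X g.1 - X g.1 ∈ w.asIdeal},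
    Set.finite_iUnion fun g => hfinK _ (hX g.1 g.2), ?_⟩
  intro v g₀ hvB hg₀ hF W hW g hg
  obtain ⟨T, hT, hfix⟩ := H30MQ.int_of_frob hF
  have hdeg : ∀ x : 𝓞 N, ∃ n : 𝓞 K,
      algebraMap (𝓞 K) (𝓞 Ω) n - algebraMap (𝓞 N) (𝓞 Ω) x ∈ T.asIdeal := by
    intro x
    apply hfix
    apply RingOfIntegers.coe_injective
    exact hg₀ (x : N)
  have e2 : ∀ x : 𝓞 K, algebraMap (𝓞 N) (𝓞 Ω) (algebraMap (𝓞 K) (𝓞 N) x) =
      algebraMap (𝓞 K) (𝓞 Ω) x := by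
    intro x
    apply RingOfIntegers.coe_injective
    exact (IsScalarTower.algebraMap_apply K N Ω (x : K)).symm
  obtain ⟨W₀, hW₀⟩ : ∃ W₀ : HeightOneSpectrum (𝓞 N), W₀ = dn N T := ⟨_, rfl⟩
  have hKW : dn K W₀ = v := by
    apply HeightOneSpectrum.ext
    ext x
    rw [hW₀, hT.over]
    change algebraMap (𝓞 N) (𝓞 Ω) (algebraMap (𝓞 K) (𝓞 N) x) ∈
      T.asIdeal ↔ algebraMap (𝓞 K) (𝓞 Ω) x ∈ T.asIdeal
    rw [e2]
  rw [← hKW] at hW
  obtain ⟨k, hk⟩ := B3_conj hW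
  have hgW : ∀ x : 𝓞 N, x ∈ W.asIdeal ↔ g⁻¹ • x ∈ W.asIdeal := by
    intro x
    have h1 : x ∈ (gq g • W).asIdeal ↔ H38T1.gO (gq g)⁻¹ x ∈ W.asIdeal := Iff.rfl
    rw [hg] at h1
    have h2 : H38T1.gO (gq g)⁻¹ x = g⁻¹ • x := by
      apply RingOfIntegers.coe_injective
      rfl
    rw [h2] at h1
    exact h1
  have hst : ∀ y : 𝓞 N, y ∈ W₀.asIdeal ↔ (k * g⁻¹ * k⁻¹) • y ∈ W₀.asIdeal := by
    intro y
    have h1 := hk (k⁻¹ • y)
    rw [smul_inv_smul] at h1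
    rw [← h1, hgW, hk, smul_smul, smul_smul]
  have hkk : k * g⁻¹ * k⁻¹ = 1 := by
    by_contra hne
    obtain ⟨s, hs⟩ : ∃ s : N ≃ₐ[K] N, s = k * g⁻¹ * k⁻¹ := ⟨_, rfl⟩
    rw [← hs] at hne hst
    obtain ⟨m, hm⟩ := hdeg (X s)
    have hm1 : algebraMap (𝓞 K) (𝓞 N) m - X s ∈ W₀.asIdeal := by
      rw [hW₀]
      change algebraMap (𝓞 N) (𝓞 Ω) (algebraMap (𝓞 K) (𝓞 N) m - X s) ∈ T.asIdeal
      rw [map_sub, e2]
      exact hm
    have hm2 := (hst _).1 hm1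
    have h5 : s • algebraMap (𝓞 K) (𝓞 N) m = algebraMap (𝓞 K) (𝓞 N) m := by
      apply RingOfIntegers.coe_injective
      exact s.commutes (m : K)
    rw [smul_sub, h5] at hm2
    have h6 : s • X s - X s ∈ W₀.asIdeal := by
      have h7 : s • X s - X s = (algebraMap (𝓞 K) (𝓞 N) m - X s) -
          (algebraMap (𝓞 K) (𝓞 N) m - s • X s) := by
        ring
      rw [h7]
      exact W₀.asIdeal.sub_mem hm1 hm2
    apply hvB
    exact Set.mem_iUnion.2 ⟨⟨s, hne⟩, W₀, hKW, h6⟩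
  have h8 : g⁻¹ = 1 := by
    have h9 : g⁻¹ = k⁻¹ * (k * g⁻¹ * k⁻¹) * k := by group
    rw [h9, hkk]
    group
  exact inv_eq_one.1 h8

end H30QC
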