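import Pool.Agent.H30.QC.B1
import Pool.Agent.H30.QC.B2
import Pool.Agent.H30.QC.B3
import Pool.Agent.H88.RE.Ib

/-!
ROW QC/B4 (about 120 lines): the good primes are dense.

PROOF. `H24TD.US K Sg` is a finite group (`fin_US` in Pool/Agent/H38/MR/Ga.lean: `H88T7.card_US7`); each class is `sc (d : K)` with `d : 𝓞 K`, `d ≠ 0` (`H88OD.Ib_int` in H88/RE/Ib.lean); let `D` be the finite set of these `d`. `exists_sig` (B2) gives `Ω, s, r, τ`. `frob_dense τ B` (B1) with `B := Sg ∪` (the `v` containing 2, or a `d ∈ D`, or some `H26OD.dd3 (a j) (b j)`) `∪` (the set of B3); finite by `H30MQ.fin_mem`.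
For such a `p` with `v, Q, φ`: `Q` is a nonzero prime (it lies over `v`), so it is a place `W` of `Ω`; `IsFrob v Q φ` says `(∀ a, a ∈ v ↔ ∃ b ∈ Q, (b : Ω) = algebraMap K Ω a)`, so `W.asIdeal.LiesOver v.asIdeal`, and `∀ x y : 𝓞 Ω, y = φ x → y - x ^ (Nv) ∈ Q`, so `IsArithFrobAt (𝓞 K) φ W.asIdeal` (`Nat.card (𝓞 K ⧸ under) = Nv = Ideal.absNorm v.asIdeal = plNorm v`): `IsFr K Ω v φ`.
`φ` is a power of `τ` and vice versa: `φ` fixes `N` and the `s d` (`H30MQ.same_sign` with `e = 0`, or directly: the stabiliser is a subgroup), and moves all roots (if `φ (r j m) = r j m` then all powers of `φ`, so `τ`, fix `r j m`). Then: `v ∈ Zs K N` by B3; `t ^ 3 + a j t + b j ∉ v` by `H26OD.noroot_of_frob` (Jd; `hdisc` from `Big.disc`); `la v (sc d) = 0` by `H30MQ.la_of_frob` with `e = 0`.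
-/

set_option autoImplicit false
set_option linter.unusedSectionVars false
open scoped Classical

open NumberField IsDedekindDomain Pool.Agent.H42.PC
open H38T1 (SC sc la)

namespace H30QC

/-- The good primes: they split completely in `N`, the cubics have no roots modulo them and the `Sg`-units are
squares modulo them. -/
def Gp (K N : Type) [Field K] [NumberField K] [Field N] [NumberField N] [Algebra K N] {ι : Type}
    (a b : ι → 𝓞 K) (Sg : Finset (HeightOneSpectrum (𝓞 K))) : Set (HeightOneSpectrum (𝓞 K)) :=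
  {v | v ∉ Sg ∧ v ∈ H26OD.Zs K N ∧ (∀ (j : ι) (t : 𝓞 K), t ^ 3 + a j * t + b j ∉ v.asIdeal) ∧
    ∀ β ∈ H24TD.US K (Sg : Set (HeightOneSpectrum (𝓞 K))), la v β = 0}

/-- A Frobenius element in the sense of `IsFrob` is one in the sense of `IsFr`. -/
private lemma b4_fr {K Ω : Type} [Field K] [NumberField K] [Field Ω] [NumberField Ω] [Algebra K Ω]
    [IsGalois K Ω] {v : HeightOneSpectrum (𝓞 K)} {Q : Ideal (𝓞 Ω)} {φ : Ω ≃ₐ[K] Ω}
    (h : Pool.Agent.H7.OR.IsFrob v Q φ) : ∃ W : HeightOneSpectrum (𝓞 Ω),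
      W.asIdeal.LiesOver v.asIdeal ∧ IsArithFrobAt (𝓞 K) φ W.asIdeal := by
  obtain ⟨hQ, hv, hφ⟩ := h
  have hmem : ∀ a : 𝓞 K, a ∈ v.asIdeal ↔ algebraMap (𝓞 K) (𝓞 Ω) a ∈ Q := by
    intro a
    rw [hv]
    constructor
    · rintro ⟨b, hb, hba⟩
      have h1 : b = algebraMap (𝓞 K) (𝓞 Ω) a := RingOfIntegers.coe_injective hba
      rw [← h1]
      exact hb
    · intro h1
      exact ⟨_, h1, rfl⟩
  have hinj : Function.Injective (algebraMap (𝓞 K) (𝓞 Ω)) := FaithfulSMul.algebraMap_injective _ _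
  have hne : Q ≠ ⊥ := by
    obtain ⟨a, ha, ha0⟩ := Submodule.exists_mem_ne_zero_of_ne_bot v.ne_bot
    intro h1
    have h2 := (hmem a).1 ha
    rw [h1, Ideal.mem_bot] at h2
    exact ha0 (hinj (h2.trans (map_zero _).symm))
  have hund : Q.under (𝓞 K) = v.asIdeal := by
    ext a
    exact (hmem a).symm
  refine ⟨⟨Q, hQ, hne⟩, ⟨hund.symm⟩, ?_⟩
  intro x
  have h1 : Nat.card (𝓞 K ⧸ Q.under (𝓞 K)) = Pool.Agent.H7.OR.plNorm v := by
    rw [hund]
    rfl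
  change φ • x - x ^ Nat.card (𝓞 K ⧸ Q.under (𝓞 K)) ∈ Q
  rw [h1]
  exact hφ x (φ • x) rfl

theorem good_dense {K N : Type} [Field K] [NumberField K] [Field N] [NumberField N]
    [Algebra K N] [IsGalois K N] {ι : Type} [Fintype ι] (a b : ι → 𝓞 K)
    (hir : ∀ (j : ι) (t : K), t ^ 3 + (a j : K) * t + (b j : K) ≠ 0)
    (hind : ∀ I : Finset ι, I.Nonempty →
      ¬ IsSquare (algebraMap K N (∏ j ∈ I, H26OD.dd3 (a j : K) (b j : K))))
    (Sg : Finset (HeightOneSpectrum (𝓞 K))) :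
    Dense {p : ℕ | p.Prime ∧ ∃ v ∈ Gp K N a b Sg, Ideal.absNorm v.asIdeal = p} := by
  have hfin : ((H24TD.US K (Sg : Set (HeightOneSpectrum (𝓞 K))) : AddSubgroup (SC K)) :
      Set (SC K)).Finite := by
    have h1 := H88T7.card_US7 (K := K) (Finset.finite_toSet Sg)
    have h2 : Finite (H24TD.US K (Sg : Set (HeightOneSpectrum (𝓞 K)))) :=
      Nat.finite_of_card_ne_zero (by rw [h1]; positivity)
    exact h2
  choose dd hd0 hdc using (fun c : SC K => H88OD.Ib_int c)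
  obtain ⟨D, hD⟩ : ∃ D : Finset (𝓞 K), D = hfin.toFinset.image dd := ⟨_, rfl⟩
  have hDmem : ∀ β ∈ H24TD.US K (Sg : Set (HeightOneSpectrum (𝓞 K))), dd β ∈ D := by
    intro β hβ
    rw [hD]
    exact Finset.mem_image_of_mem _ (hfin.mem_toFinset.2 hβ)
  have hD0 : ∀ d ∈ D, d ≠ 0 := by
    intro d hd
    rw [hD] at hd
    obtain ⟨c, -, rfl⟩ := Finset.mem_image.1 hd
    exact hd0 c
  obtain ⟨Ω, _, _, _, _, _, hgal, s, r, τ, hs, hr, hτN, hτs, hτr⟩ := exists_sig a b hir hind D hD0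
  obtain ⟨B3, hB3, hZs⟩ := zs_frob (K := K) (N := N) (Ω := Ω)
  have hfd : FiniteDimensional K Ω := Module.Finite.of_restrictScalars_finite ℚ K Ω
  have hdisc : ∀ j, ((r j 0 - r j 1) * (r j 0 - r j 2) * (r j 1 - r j 2)) ^ 2 =
      algebraMap K Ω (H26OD.dd3 (a j : K) (b j : K)) := fun j =>
    H26OD.Big.disc (K := K) (Ω := Ω) (a := fun j => (a j : K)) (b := fun j => (b j : K)) (r := r)
      ⟨hgal, hr⟩ j
  have hdd : ∀ j, H26OD.dd3 (a j) (b j) ≠ 0 := by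
    intro j h0
    refine hind {j} (Finset.singleton_nonempty j) ?_
    rw [Finset.prod_singleton]
    have h1 : H26OD.dd3 (a j : K) (b j : K) = algebraMap (𝓞 K) K (H26OD.dd3 (a j) (b j)) := by
      unfold H26OD.dd3
      rw [map_neg, map_add, map_mul, map_mul, map_pow, map_pow, map_ofNat, map_ofNat]
    rw [h1, h0, map_zero, map_zero]
    exact IsSquare.zero
  obtain ⟨B, hBdef⟩ : ∃ B : Set (HeightOneSpectrum (𝓞 K)), B =
      ((((Sg : Set (HeightOneSpectrum (𝓞 K))) ∪ {v | (2 : 𝓞 K) ∈ v.asIdeal}) ∪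
      ⋃ d ∈ D, {v | d ∈ v.asIdeal}) ∪ ⋃ j, {v | H26OD.dd3 (a j) (b j) ∈ v.asIdeal}) ∪ B3 :=
    ⟨_, rfl⟩
  have hB : B.Finite := by
    rw [hBdef]
    exact (((Sg.finite_toSet.union (H30MQ.fin_mem two_ne_zero)).union
      (Set.Finite.biUnion D.finite_toSet fun d hd => H30MQ.fin_mem (hD0 d hd))).union
      (Set.finite_iUnion fun j => H30MQ.fin_mem (hdd j))).union hB3
  obtain ⟨c, hc, x₀, h⟩ := frob_dense τ B hB
  refine ⟨c, hc, x₀, fun x hx => (h x hx).trans ?_⟩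
  refine Nat.cast_le.2 (Set.ncard_le_ncard ?_ ?_)
  swap
  · refine (Set.finite_Iic ⌊x⌋₊).subset ?_
    rintro p ⟨-, hp⟩
    exact Nat.le_floor hp
  rintro p ⟨⟨hp, v, hvB, hvp, Q, φ, hφ, hz⟩, hpx⟩
  refine ⟨⟨hp, v, ?_, hvp⟩, hpx⟩
  rw [hBdef] at hvB
  have hvSg : v ∉ Sg := fun h => hvB (Or.inl (Or.inl (Or.inl (Or.inl (Finset.mem_coe.2 h)))))
  have hv2 : (2 : 𝓞 K) ∉ v.asIdeal := fun h => hvB (Or.inl (Or.inl (Or.inl (Or.inr h))))
  have hvD : ∀ d ∈ D, d ∉ v.asIdeal := fun d hd h =>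
    hvB (Or.inl (Or.inl (Or.inr (Set.mem_biUnion hd h))))
  have hvdd : ∀ j, H26OD.dd3 (a j) (b j) ∉ v.asIdeal := fun j h =>
    hvB (Or.inl (Or.inr (Set.mem_iUnion.2 ⟨j, h⟩)))
  have hv3 : v ∉ B3 := fun h => hvB (Or.inr h)
  obtain ⟨W, hW, hfr⟩ := b4_fr hφ
  have hF : IsFr K Ω v φ := ⟨W, hW, hfr⟩
  have hφN : ∀ x : N, φ (algebraMap N Ω x) = algebraMap N Ω x := by
    intro x
    have h3 := H30MQ.same_sign (g := φ) (σ := τ) hz (s := algebraMap N Ω x) (e := 0)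
      (by rw [if_pos rfl]; exact hτN x)
    rw [if_pos rfl] at h3
    exact h3
  refine ⟨hvSg, hZs v φ hv3 hφN hF, fun j t => ?_, fun β hβ => ?_⟩
  · refine H26OD.noroot_of_frob hW hfr (r := r j) (hr j) (hdisc j) (hvdd j) (fun m hm => ?_) t
    apply hτr j m
    have h3 := H30MQ.same_sign (g := τ) (σ := φ) hz.symm (s := r j m) (e := 0)
      (by rw [if_pos rfl]; exact hm)
    rw [if_pos rfl] at h3
    exact h3
  · have h4 := H30MQ.la_of_frob hF hv2 (hvD _ (hDmem β hβ)) (hs _ (hDmem β hβ)) (e := 0)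
      (H30MQ.same_sign (g := φ) (σ := τ) hz (by rw [if_pos rfl]; exact hτs _ (hDmem β hβ)))
    rw [hdc β] at h4
    exact h4

end H30QC
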