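import Mathlib

/-!
QC/C1b (helper30): Minkowski's theorem for the inverse of the square part of a principal ideal.
-/

set_option autoImplicit false
open scoped Classical

open NumberField IsDedekindDomain NumberField.mixedEmbedding nonZeroDivisors

namespace H30QC

theorem mink (K : Type) [Field K] [NumberField K] :
    ∃ C : ℝ, 0 < C ∧ ∀ y : 𝓞 K, y ≠ 0 → ∀ J : Ideal (𝓞 K), J ≠ ⊥ → J ^ 2 ∣ Ideal.span {y} →
      ∃ (γ : K) (D : 𝓞 K), γ ≠ 0 ∧ (D : K) = (y : K) * γ ^ 2 ∧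
        ∀ s : K →+* ℂ, ‖s (D : K)‖ ≤
          C * ((Ideal.absNorm (Ideal.span {y}) : ℝ) / (Ideal.absNorm J : ℝ) ^ 2) ^
            ((1 : ℝ) / Module.finrank ℚ K) := by
  obtain ⟨V0, hV0⟩ : ∃ V0 : ENNReal, V0 = MeasureTheory.volume
      (ZSpan.fundamentalDomain (latticeBasis K)) *
        (2 : ENNReal) ^ (Module.finrank ℝ (mixedSpace K)) := ⟨_, rfl⟩
  have hV0t : V0 ≠ ⊤ := by
    rw [hV0]
    exact (ENNReal.mul_lt_top (ZSpan.fundamentalDomain_isBounded _).measure_lt_top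
      (ENNReal.pow_lt_top ENNReal.ofNat_lt_top)).ne
  obtain ⟨C₀, hC₀⟩ : ∃ C₀ : ℝ, C₀ = V0.toReal := ⟨_, rfl⟩
  have hC0 : 0 ≤ C₀ := by rw [hC₀]; exact ENNReal.toReal_nonneg
  have hn : 0 < Module.finrank ℚ K := Module.finrank_pos
  have hn' : (0 : ℝ) < (Module.finrank ℚ K : ℝ) := by exact_mod_cast hn
  obtain ⟨n, hnn⟩ : ∃ n : ℕ, n = Module.finrank ℚ K := ⟨_, rfl⟩
  refine ⟨(C₀ + 1) ^ ((2 : ℝ) / Module.finrank ℚ K), Real.rpow_pos_of_pos (by linarith) _, ?_⟩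
  intro y hy J hJ hJy
  have hyK : (y : K) ≠ 0 := fun h => hy
    ((map_eq_zero_iff (algebraMap (𝓞 K) K) (IsFractionRing.injective (𝓞 K) K)).1 h)
  have hI : Ideal.span {y} ≠ (⊥ : Ideal (𝓞 K)) := by
    rw [Ne, Ideal.span_singleton_eq_bot]
    exact hy
  have hN : ∀ A : Ideal (𝓞 K), A ≠ ⊥ → (0 : ℝ) < (Ideal.absNorm A : ℝ) := fun A hA => by
    have h1 : Ideal.absNorm A ≠ 0 := Ideal.absNorm_ne_zero_iff_mem_nonZeroDivisors.2
      (mem_nonZeroDivisors_of_ne_zero hA)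
    exact_mod_cast Nat.pos_of_ne_zero h1
  obtain ⟨A, hA⟩ : ∃ A : ℝ, A = (Ideal.absNorm (Ideal.span {y}) : ℝ) := ⟨_, rfl⟩
  obtain ⟨B, hB⟩ : ∃ B : ℝ, B = (Ideal.absNorm J : ℝ) := ⟨_, rfl⟩
  have hA0 : 0 < A := by rw [hA]; exact hN _ hI
  have hB0 : 0 < B := by rw [hB]; exact hN _ hJ
  rw [← hA, ← hB, ← hnn]
  rw [← hnn] at hn'
  obtain ⟨Z, hZ⟩ : ∃ Z : ℝ, Z = (C₀ + 1) ^ ((2 : ℝ) / n) * (A / B ^ 2) ^ ((1 : ℝ) / n) :=
    ⟨_, rfl⟩
  rw [← hZ]
  have hAB : 0 < A / B ^ 2 := by positivity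
  have hC1 : 0 < C₀ + 1 := by linarith
  have hZ0 : 0 < Z := by
    rw [hZ]
    exact mul_pos (Real.rpow_pos_of_pos hC1 _) (Real.rpow_pos_of_pos hAB _)
  have hZn : Z ^ n = (C₀ + 1) ^ 2 * (A / B ^ 2) := by
    rw [hZ, mul_pow, ← Real.rpow_natCast, ← Real.rpow_natCast, ← Real.rpow_mul hC1.le,
      ← Real.rpow_mul hAB.le, div_mul_cancel₀ _ hn'.ne', div_mul_cancel₀ _ hn'.ne', Real.rpow_one,
      Real.rpow_two]
  have hwy : ∀ w : InfinitePlace K, 0 < w (y : K) := fun w => InfinitePlace.pos_iff.2 hyK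
  have hprod : ∏ w : InfinitePlace K, (w (y : K)) ^ InfinitePlace.mult w = A := by
    rw [InfinitePlace.prod_eq_abs_norm, hA, Ideal.absNorm_span_singleton]
    have h1 : Algebra.norm ℚ ((y : 𝓞 K) : K) = ((Algebra.norm ℤ y : ℤ) : ℚ) :=
      (Algebra.coe_norm_int y).symm
    rw [h1]
    push_cast
    rw [← Int.cast_abs, Int.abs_eq_natAbs]
    simp
  obtain ⟨f, hf⟩ : ∃ f : InfinitePlace K → NNReal,
      ∀ w, ((f w : NNReal) : ℝ) = Real.sqrt (Z / w (y : K)) :=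
    ⟨fun w => ⟨Real.sqrt (Z / w (y : K)), Real.sqrt_nonneg _⟩, fun _ => rfl⟩
  have hpf : ((∏ w : InfinitePlace K, (f w) ^ InfinitePlace.mult w : NNReal) : ℝ) =
      (C₀ + 1) / B := by
    push_cast
    have h1 : ∀ w : InfinitePlace K, 0 ≤ Z / w (y : K) := fun w => (div_pos hZ0 (hwy w)).le
    have h2 : (∏ w : InfinitePlace K, ((f w : NNReal) : ℝ) ^ InfinitePlace.mult w) ^ 2 =
        ((C₀ + 1) / B) ^ 2 := by
      rw [← Finset.prod_pow]
      have h3 : ∀ w : InfinitePlace K, (((f w : NNReal) : ℝ) ^ InfinitePlace.mult w) ^ 2 =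
          Z ^ InfinitePlace.mult w / (w (y : K)) ^ InfinitePlace.mult w := by
        intro w
        rw [hf, ← pow_mul, mul_comm, pow_mul, Real.sq_sqrt (h1 w), div_pow]
      rw [Finset.prod_congr rfl fun w _ => h3 w, Finset.prod_div_distrib, hprod,
        Finset.prod_pow_eq_pow_sum, InfinitePlace.sum_mult_eq, ← hnn, hZn]
      field_simp
    have h4 : 0 ≤ ∏ w : InfinitePlace K, ((f w : NNReal) : ℝ) ^ InfinitePlace.mult w :=
      Finset.prod_nonneg fun w _ => pow_nonneg (NNReal.coe_nonneg _) _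
    have h5 : 0 ≤ (C₀ + 1) / B := by positivity
    exact (pow_left_inj₀ h4 h5 two_ne_zero).1 h2
  have hJf : (J : FractionalIdeal (𝓞 K)⁰ K) ≠ 0 := FractionalIdeal.coeIdeal_ne_zero.2 hJ
  obtain ⟨I, hIJ⟩ : ∃ I : (FractionalIdeal (𝓞 K)⁰ K)ˣ,
      (I : FractionalIdeal (𝓞 K)⁰ K) = (J : FractionalIdeal (𝓞 K)⁰ K)⁻¹ :=
    ⟨Units.mk0 _ (inv_ne_zero hJf), rfl⟩
  have hmb : minkowskiBound K I = ENNReal.ofReal (1 / B) * V0 := by
    unfold minkowskiBound
    rw [volume_fundamentalDomain_fractionalIdealLatticeBasis, hV0, mul_assoc, hIJ, map_inv₀,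
      FractionalIdeal.coeIdeal_absNorm, hB, one_div]
    push_cast
    rfl
  have hlt : minkowskiBound K I < MeasureTheory.volume (convexBodyLT K f) := by
    rw [hmb, convexBodyLT_volume]
    have e1 : V0 = ENNReal.ofReal C₀ := by rw [hC₀, ENNReal.ofReal_toReal hV0t]
    have e2 : ENNReal.ofReal (1 / B) * V0 < ENNReal.ofReal ((C₀ + 1) / B) := by
      rw [e1, ← ENNReal.ofReal_mul (by positivity), ENNReal.ofReal_lt_ofReal_iff (by positivity)]
      rw [one_div, inv_mul_eq_div]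
      exact div_lt_div_of_pos_right (by linarith) hB0
    refine lt_of_lt_of_le e2 ?_
    rw [← hpf, ENNReal.ofReal_coe_nnreal]
    have h1 : (1 : ENNReal) ≤ (convexBodyLTFactor K : ENNReal) := by
      exact_mod_cast one_le_convexBodyLTFactor K
    calc ((∏ w : InfinitePlace K, (f w) ^ InfinitePlace.mult w : NNReal) : ENNReal)
        = 1 * ((∏ w : InfinitePlace K, (f w) ^ InfinitePlace.mult w : NNReal) : ENNReal) :=
          (one_mul _).symm
      _ ≤ _ := mul_le_mul_left h1 _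
  obtain ⟨γ, hγI, hγ0, hγ⟩ := exists_ne_zero_mem_ideal_lt K I hlt
  have hyJ : (y : K) ∈ ((J : FractionalIdeal (𝓞 K)⁰ K) * (J : FractionalIdeal (𝓞 K)⁰ K)) := by
    rw [← FractionalIdeal.coeIdeal_mul, FractionalIdeal.mem_coeIdeal]
    refine ⟨y, ?_, rfl⟩
    rw [← sq]
    exact Ideal.le_of_dvd hJy (Ideal.mem_span_singleton_self y)
  rw [hIJ] at hγI
  have hD : (y : K) * (γ * γ) ∈ (1 : FractionalIdeal (𝓞 K)⁰ K) := by
    have h1 := FractionalIdeal.mul_mem_mul hyJ (FractionalIdeal.mul_mem_mul hγI hγI)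
    rwa [mul_mul_mul_comm, mul_inv_cancel₀ hJf, one_mul] at h1
  obtain ⟨D, hDe⟩ := (FractionalIdeal.mem_one_iff (𝓞 K)⁰).1 hD
  refine ⟨γ, D, hγ0, ?_, ?_⟩
  · rw [sq]
    exact hDe
  · intro s
    have h1 : ‖s (D : K)‖ = (InfinitePlace.mk s) (D : K) := rfl
    rw [h1]
    have h2 : (D : K) = (y : K) * (γ * γ) := hDe
    rw [h2, map_mul, map_mul]
    have h3 := hγ (InfinitePlace.mk s)
    rw [hf] at h3
    have h4 : (InfinitePlace.mk s) γ * (InfinitePlace.mk s) γ ≤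
        Z / (InfinitePlace.mk s) (y : K) := by
      have h5 : 0 ≤ (InfinitePlace.mk s) γ := apply_nonneg _ _
      have h6 := Real.sq_sqrt (div_pos hZ0 (hwy (InfinitePlace.mk s))).le
      nlinarith
    calc (InfinitePlace.mk s) (y : K) * ((InfinitePlace.mk s) γ * (InfinitePlace.mk s) γ)
        ≤ (InfinitePlace.mk s) (y : K) * (Z / (InfinitePlace.mk s) (y : K)) :=
          mul_le_mul_of_nonneg_left h4 (hwy _).le
      _ = Z := by
          have h7 := (hwy (InfinitePlace.mk s)).ne'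
          field_simp

end H30QC
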