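import Pool.Agent.H30.QC.C1a
import Pool.Agent.H30.QC.C1b

/-!
QC/C1 (helper30): reduction of an element modulo squares (Minkowski).
-/

set_option autoImplicit false
open scoped Classical

open NumberField IsDedekindDomain

namespace H30QC

theorem reduce (K : Type) [Field K] [NumberField K] :
    ∃ C : ℝ, 0 < C ∧ ∀ (x : K), x ≠ 0 → ∀ T : Finset (HeightOneSpectrum (𝓞 K)),
      (∀ v : HeightOneSpectrum (𝓞 K), v ∉ T → IsSquare (v.valuation K x)) →
      ∃ (γ : K) (D : 𝓞 K), γ ≠ 0 ∧ (D : K) = x * γ ^ 2 ∧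
        ∀ s : K →+* ℂ, ‖s (D : K)‖ ≤
          C * (∏ v ∈ T, (Ideal.absNorm v.asIdeal : ℝ)) ^ ((1 : ℝ) / Module.finrank ℚ K) := by
  obtain ⟨C, hC, hmink⟩ := mink K
  refine ⟨C, hC, fun x hx T hT => ?_⟩
  obtain ⟨α, β, hβ, hxy⟩ := IsFractionRing.div_surjective (A := 𝓞 K) x
  have hinj : ∀ z : 𝓞 K, (z : K) = 0 → z = 0 := fun z h =>
    (map_eq_zero_iff (algebraMap (𝓞 K) K) (IsFractionRing.injective (𝓞 K) K)).1 h
  have hβ0 : β ≠ 0 := nonZeroDivisors.ne_zero hβ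
  have hβK : (β : K) ≠ 0 := fun h => hβ0 (hinj β h)
  have hxe : x = (α : K) / (β : K) := hxy.symm
  have hα0 : α ≠ 0 := by
    rintro rfl
    apply hx
    have h0 : ((0 : 𝓞 K) : K) = 0 := map_zero (algebraMap (𝓞 K) K)
    rw [hxe, h0, zero_div]
  obtain ⟨y, hy⟩ : ∃ y : 𝓞 K, y = α * β := ⟨_, rfl⟩
  have hy0 : y ≠ 0 := by rw [hy]; exact mul_ne_zero hα0 hβ0
  have hyx : (y : K) = x * (β : K) ^ 2 := by
    have h0 : ((α * β : 𝓞 K) : K) = (α : K) * (β : K) := map_mul (algebraMap (𝓞 K) K) α β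
    rw [hy, hxe, h0]
    field_simp
  obtain ⟨J, hJ, hJd, hle⟩ := ideal_part y hy0 T (by
    intro v hv
    obtain ⟨z, hz⟩ := hT v hv
    refine ⟨z * v.valuation K (β : K), ?_⟩
    rw [hyx, map_mul, map_pow, hz, sq, mul_mul_mul_comm])
  obtain ⟨γ, D, hγ, hD, hs⟩ := hmink y hy0 J hJ hJd
  refine ⟨(β : K) * γ, D, mul_ne_zero hβK hγ, ?_, fun s => (hs s).trans ?_⟩
  · rw [hD, hyx]
    ring
  · have hB : (0 : ℝ) < (Ideal.absNorm J : ℝ) := by
      have h1 : Ideal.absNorm J ≠ 0 := Ideal.absNorm_ne_zero_iff_mem_nonZeroDivisors.2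
        (mem_nonZeroDivisors_of_ne_zero hJ)
      exact_mod_cast Nat.pos_of_ne_zero h1
    refine mul_le_mul_of_nonneg_left ?_ hC.le
    refine Real.rpow_le_rpow (by positivity) ?_ (by positivity)
    rw [div_le_iff₀ (by positivity), mul_comm]
    exact hle

end H30QC
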