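import Mathlib

/-!
QC/C1a (helper30): the square part of a principal ideal.
-/

set_option autoImplicit false
open scoped Classical

open NumberField IsDedekindDomain

namespace H30QC

/-- The square part of an ideal. -/
lemma sq_part {K : Type} [Field K] [NumberField K] {I : Ideal (𝓞 K)} (hI : I ≠ ⊥) :
    ∃ J Q : Ideal (𝓞 K), J ≠ ⊥ ∧ Q ≠ ⊥ ∧ I = J ^ 2 * Q ∧ Squarefree Q := by
  have hN : ∀ A : Ideal (𝓞 K), A ≠ ⊥ → 0 < Ideal.absNorm A := fun A hA =>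
    Nat.pos_of_ne_zero (Ideal.absNorm_ne_zero_iff_mem_nonZeroDivisors.2
      (mem_nonZeroDivisors_of_ne_zero hA))
  obtain ⟨s, hs⟩ : ∃ s : Set ℕ, s = {m | ∃ J : Ideal (𝓞 K), J ^ 2 ∣ I ∧ Ideal.absNorm J = m} :=
    ⟨_, rfl⟩
  have h1 : s.Nonempty := ⟨Ideal.absNorm (1 : Ideal (𝓞 K)), by
    rw [hs]
    exact ⟨1, by rw [one_pow]; exact one_dvd _, rfl⟩⟩
  have h2 : BddAbove s := by
    refine ⟨Ideal.absNorm I, ?_⟩
    rintro m hm
    rw [hs] at hm
    obtain ⟨J, hJ, rfl⟩ := hm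
    refine Nat.le_of_dvd (hN I hI) ?_
    exact map_dvd Ideal.absNorm ((dvd_pow_self J two_ne_zero).trans hJ)
  have h3 := Nat.sSup_mem h1 h2
  have h4 : ∃ J : Ideal (𝓞 K), J ^ 2 ∣ I ∧ Ideal.absNorm J = sSup s := by
    have h5 : ∀ m, m ∈ s → ∃ J : Ideal (𝓞 K), J ^ 2 ∣ I ∧ Ideal.absNorm J = m := by
      intro m hm
      rw [hs] at hm
      exact hm
    exact h5 _ h3
  obtain ⟨J, hJ, hJm⟩ := h4
  obtain ⟨Q, hQ⟩ := hJ
  have hJ0 : J ≠ ⊥ := by
    rintro rfl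
    apply hI
    rw [hQ, ← Ideal.zero_eq_bot, zero_pow two_ne_zero, zero_mul]
  have hQ0 : Q ≠ ⊥ := by
    rintro rfl
    apply hI
    rw [hQ, ← Ideal.zero_eq_bot, mul_zero]
  refine ⟨J, Q, hJ0, hQ0, hQ, ?_⟩
  rintro x ⟨R, hR⟩
  have h5 : Ideal.absNorm (J * x) ≤ Ideal.absNorm J := by
    rw [hJm]
    refine le_csSup h2 ?_
    rw [hs]
    refine ⟨J * x, ⟨R, ?_⟩, rfl⟩
    rw [hQ, hR]
    ring
  have hx0 : x ≠ ⊥ := by
    rintro rfl
    apply hQ0
    rw [hR, ← Ideal.zero_eq_bot, zero_mul, zero_mul]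
  rw [map_mul] at h5
  have h6 : Ideal.absNorm x = 1 := by
    have h7 := hN J hJ0
    have h8 := hN x hx0
    have h9 : Ideal.absNorm x ≤ 1 := by
      by_contra hcon
      nlinarith
    omega
  rw [Ideal.absNorm_eq_one_iff] at h6
  rw [h6, ← Ideal.one_eq_top]
  exact isUnit_one

theorem ideal_part {K : Type} [Field K] [NumberField K] (y : 𝓞 K) (hy : y ≠ 0)
    (T : Finset (HeightOneSpectrum (𝓞 K)))
    (h : ∀ v : HeightOneSpectrum (𝓞 K), v ∉ T → IsSquare (v.valuation K (y : K))) :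
    ∃ J : Ideal (𝓞 K), J ≠ ⊥ ∧ J ^ 2 ∣ Ideal.span {y} ∧
      (Ideal.absNorm (Ideal.span {y}) : ℝ) ≤
        (Ideal.absNorm J : ℝ) ^ 2 * ∏ v ∈ T, (Ideal.absNorm v.asIdeal : ℝ) := by
  have hI : Ideal.span {y} ≠ (⊥ : Ideal (𝓞 K)) := by
    rw [Ne, Ideal.span_singleton_eq_bot]
    exact hy
  obtain ⟨J, Q, hJ, hQ, hIJ, hsf⟩ := sq_part hI
  refine ⟨J, hJ, ⟨Q, hIJ⟩, ?_⟩
  -- the primes dividing `Q` lie in `T`
  have key : ∀ v : HeightOneSpectrum (𝓞 K), v.asIdeal ∣ Q → v ∈ T := by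
    intro v hvQ
    by_contra hvT
    obtain ⟨z, hz⟩ := h v hvT
    have hvp : Prime v.asIdeal := v.prime
    have hfin : FiniteMultiplicity v.asIdeal J :=
      FiniteMultiplicity.of_prime_left hvp hJ
    obtain ⟨J', hJ1, hJ2⟩ := hfin.exists_eq_pow_mul_and_not_dvd
    obtain ⟨j, hj⟩ : ∃ j, j = multiplicity v.asIdeal J := ⟨_, rfl⟩
    rw [← hj] at hJ1
    obtain ⟨Q', hQ'⟩ := hvQ
    have hQ2 : ¬ v.asIdeal ∣ Q' := by
      rintro ⟨R, hR⟩
      have h1 := hsf v.asIdeal ⟨R, by rw [hQ', hR, mul_assoc]⟩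
      exact hvp.not_isUnit h1
    have hI2 : Ideal.span {y} = v.asIdeal ^ (2 * j + 1) * (J' ^ 2 * Q') := by
      rw [hIJ, hJ1, hQ']
      ring
    have hd1 : v.asIdeal ^ (2 * j + 1) ∣ Ideal.span {y} := ⟨_, hI2⟩
    have hd2 : ¬ v.asIdeal ^ (2 * j + 2) ∣ Ideal.span {y} := by
      rintro ⟨R, hR⟩
      rw [hI2, show 2 * j + 2 = (2 * j + 1) + 1 from rfl, pow_succ v.asIdeal (2 * j + 1),
        mul_assoc] at hR
      have h1 := mul_left_cancel₀ (pow_ne_zero _ hvp.ne_zero) hR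
      have h2 : v.asIdeal ∣ J' ^ 2 * Q' := ⟨R, h1⟩
      rcases hvp.dvd_or_dvd h2 with h3 | h3
      · exact hJ2 (hvp.dvd_of_dvd_pow h3)
      · exact hQ2 h3
    have hz0 : z ≠ 0 := by
      rintro rfl
      rw [mul_zero] at hz
      apply hy
      exact (map_eq_zero_iff (algebraMap (𝓞 K) K) (IsFractionRing.injective (𝓞 K) K)).1
        ((map_eq_zero _).1 hz)
    have hv1 : v.intValuation y = z * z := by
      rw [← hz]
      exact (v.valuation_of_algebraMap y).symm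
    have e1 : v.intValuation y ≤ WithZero.exp (-((2 * j + 1 : ℕ) : ℤ)) :=
      (v.intValuation_le_pow_iff_dvd y _).2 hd1
    have e2 : ¬ v.intValuation y ≤ WithZero.exp (-((2 * j + 2 : ℕ) : ℤ)) := fun hc =>
      hd2 ((v.intValuation_le_pow_iff_dvd y _).1 hc)
    obtain ⟨m, hm⟩ : ∃ m : ℤ, z = WithZero.exp m := ⟨WithZero.log z, (WithZero.exp_log hz0).symm⟩
    rw [hv1, hm, ← WithZero.exp_add, WithZero.exp_le_exp] at e1 e2
    push_cast at e1 e2
    omega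
  have hP : (∏ v ∈ T, v.asIdeal) ≠ 0 := Finset.prod_ne_zero_iff.2 fun v _ => v.ne_bot
  have hdvd : Q ∣ ∏ v ∈ T, v.asIdeal := by
    rw [UniqueFactorizationMonoid.dvd_iff_normalizedFactors_le_normalizedFactors hQ hP]
    rw [Multiset.le_iff_subset
      ((UniqueFactorizationMonoid.squarefree_iff_nodup_normalizedFactors hQ).1 hsf)]
    intro p hp
    have hp1 := UniqueFactorizationMonoid.prime_of_normalized_factor p hp
    have hp2 := UniqueFactorizationMonoid.dvd_of_mem_normalizedFactors hp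
    have hpp : p.IsPrime := Ideal.isPrime_of_prime hp1
    obtain ⟨v, hv⟩ : ∃ v : HeightOneSpectrum (𝓞 K), v.asIdeal = p := ⟨⟨p, hpp, hp1.ne_zero⟩, rfl⟩
    rw [UniqueFactorizationMonoid.mem_normalizedFactors_iff hP]
    refine ⟨hp1, ?_⟩
    rw [← hv]
    exact Finset.dvd_prod_of_mem _ (key v (by rw [hv]; exact hp2))
  have hle : Ideal.absNorm Q ≤ ∏ v ∈ T, Ideal.absNorm v.asIdeal := by
    rw [← map_prod]
    refine Nat.le_of_dvd (Nat.pos_of_ne_zero (Ideal.absNorm_ne_zero_iff_mem_nonZeroDivisors.2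
      (mem_nonZeroDivisors_of_ne_zero hP))) ?_
    exact map_dvd Ideal.absNorm hdvd
  rw [hIJ, map_mul, map_pow]
  push_cast
  refine mul_le_mul_of_nonneg_left ?_ (by positivity)
  exact_mod_cast hle

end H30QC
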