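import Mathlib

/-!
Project MP_78d38b_QC (helper30): the number of twists. Definitions.
-/

set_option autoImplicit false
open scoped Classical

namespace H30QC

/-- At least `c x / log x` elements of `P` are at most `x`. -/
def Dense (P : Set ℕ) : Prop :=
  ∃ c : ℝ, 0 < c ∧ ∃ x₀ : ℝ, ∀ x : ℝ, x₀ ≤ x →
    c * (x / Real.log x) ≤ ({p : ℕ | p ∈ P ∧ (p : ℝ) ≤ x}.ncard : ℝ)

/-- The squarefree numbers up to `n` all of whose prime factors lie in `P`. -/
noncomputable def Sm (P : Set ℕ) (n : ℕ) : Finset ℕ :=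
  (Finset.Icc 1 n).filter fun m => Squarefree m ∧ ∀ p : ℕ, p.Prime → p ∣ m → p ∈ P

theorem mem_Sm {P : Set ℕ} {n m : ℕ} :
    m ∈ Sm P n ↔ 1 ≤ m ∧ m ≤ n ∧ Squarefree m ∧ ∀ p : ℕ, p.Prime → p ∣ m → p ∈ P := by
  unfold Sm
  rw [Finset.mem_filter, Finset.mem_Icc, and_assoc]

end H30QC
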