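import Pool.Agent.H30.QC.C1
import Pool.Agent.H88.RE.Ib

/-!
QC/E0 (helper30): the twisting element of a finite set of good primes, reduced modulo squares.
-/

set_option autoImplicit false
set_option linter.unusedSectionVars false
open scoped Classical

open WithZero NumberField IsDedekindDomain H38RT
open H38T1 (SC sc scu rep eo la si OddP)

namespace H30QC

lemma nsq_of_ord {K : Type} [Field K] [NumberField K] {v : HeightOneSpectrum (𝓞 K)} {x : K}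
    (h : ord (v.valuation K) x = 1) : ¬ IsSquare (v.valuation K x) := by
  rintro ⟨y, hy⟩
  unfold ord at h
  rw [hy] at h
  by_cases hy0 : y = 0
  · rw [hy0, mul_zero, log_zero] at h
    norm_num at h
  · rw [log_mul hy0 hy0] at h
    omega

theorem one_D {K : Type} [Field K] [NumberField K] {Sg : Finset (HeightOneSpectrum (𝓞 K))}
    (h2 : ∀ v : HeightOneSpectrum (𝓞 K), v ∉ Sg → v.valuation K 2 = 1) (hcl : H88OD.ClOk K Sg)
    {D1 : K} (hD1 : D1 ≠ 0) (hD1v : ∀ v : HeightOneSpectrum (𝓞 K), v ∉ Sg → v.valuation K D1 = 1) :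
    ∃ C : ℝ, 0 < C ∧ ∀ T : Finset (HeightOneSpectrum (𝓞 K)),
      (∀ v ∈ T, v ∉ Sg ∧ ∀ β ∈ H24TD.US K (Sg : Set (HeightOneSpectrum (𝓞 K))), la v β = 0) →
      ∃ (D : 𝓞 K) (δ γ : K), D ≠ 0 ∧ δ ≠ 0 ∧ γ ≠ 0 ∧ (D : K) = D1 * δ * γ ^ 2 ∧
        (∀ s : K →+* ℂ, ‖s (D : K)‖ ≤
          C * (∏ v ∈ T, (Ideal.absNorm v.asIdeal : ℝ)) ^ ((1 : ℝ) / Module.finrank ℚ K)) ∧
        (∀ u ∈ Sg, IsSquare (algebraMap K (u.adicCompletion K) δ)) ∧
        (∀ s : K →+* ℝ, 0 < s δ) ∧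
        (∀ u : HeightOneSpectrum (𝓞 K), u ∉ Sg → u.valuation K δ ≠ 1 → u ∈ T) ∧
        (∀ v ∈ T, ¬ IsSquare (v.valuation K (D : K))) ∧
        ∀ v : HeightOneSpectrum (𝓞 K), v ∉ T → v ∉ Sg → IsSquare (v.valuation K (D : K)) := by
  obtain ⟨C, hC, hred⟩ := reduce K
  have hn1 : ∀ v : HeightOneSpectrum (𝓞 K), (1 : ℝ) ≤ (Ideal.absNorm v.asIdeal : ℝ) := by
    intro v
    have h1 : Ideal.absNorm v.asIdeal ≠ 0 := Ideal.absNorm_ne_zero_iff_mem_nonZeroDivisors.2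
      (mem_nonZeroDivisors_of_ne_zero v.ne_bot)
    exact_mod_cast Nat.one_le_iff_ne_zero.2 h1
  have hpr : ∀ T : Finset (HeightOneSpectrum (𝓞 K)),
      (1 : ℝ) ≤ ∏ v ∈ T, (Ideal.absNorm v.asIdeal : ℝ) := by
    intro T
    calc (1 : ℝ) = ∏ v ∈ T, (1 : ℝ) := by rw [Finset.prod_const_one]
      _ ≤ _ := Finset.prod_le_prod (fun _ _ => zero_le_one) fun v _ => hn1 v
  refine ⟨C * (∏ v ∈ Sg, (Ideal.absNorm v.asIdeal : ℝ)) ^ ((1 : ℝ) / Module.finrank ℚ K),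
    mul_pos hC (Real.rpow_pos_of_pos (lt_of_lt_of_le one_pos (hpr Sg)) _), ?_⟩
  intro T hT
  obtain ⟨δ, hδ0, hδ1, hδ2, hδ3, hδ4⟩ := H88OD.exists_delta h2 hcl T (fun q hq => (hT q hq).1) 0 (by
    intro β hβ
    rw [Finset.sum_eq_zero fun q hq => (hT q hq).2 β hβ]
    symm
    exact Finset.sum_eq_zero fun s _ => by rw [Pi.zero_apply, zero_mul])
  have hx0 : D1 * δ ≠ 0 := mul_ne_zero hD1 hδ0
  obtain ⟨γ, D, hγ, hD, hDs⟩ := hred (D1 * δ) hx0 (Sg ∪ T) (by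
    intro v hv
    rw [Finset.mem_union, not_or] at hv
    rw [map_mul, hD1v v hv.1, hδ2 v hv.2 hv.1, one_mul]
    exact ⟨1, (one_mul 1).symm⟩)
  have hdj : Disjoint Sg T := by
    rw [Finset.disjoint_left]
    intro v hv hvT
    exact (hT v hvT).1 hv
  have hval : ∀ v : HeightOneSpectrum (𝓞 K), v.valuation K γ ≠ 0 := by
    intro v h
    exact hγ ((map_eq_zero _).1 h)
  refine ⟨D, δ, γ, ?_, hδ0, hγ, hD, ?_, hδ3, ?_, ?_, ?_, ?_⟩
  · intro h
    rw [h] at hD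
    exact mul_ne_zero hx0 (pow_ne_zero 2 hγ) (hD.symm.trans (map_zero (algebraMap (𝓞 K) K)))
  · intro s
    refine (hDs s).trans (le_of_eq ?_)
    rw [Finset.prod_union hdj, Real.mul_rpow (zero_le_one.trans (hpr Sg)) (zero_le_one.trans (hpr T)),
      mul_assoc]
  · intro s
    have h3 := hδ4 s
    rw [H38T1.si_sc s hδ0] at h3
    have h4 : s δ ≠ 0 := (map_ne_zero s).2 hδ0
    by_contra h5
    have h6 : s δ < 0 := lt_of_le_of_ne (not_lt.1 h5) h4
    have h7 : H38RT.sw s δ = 1 := if_pos h6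
    rw [h7] at h3
    exact one_ne_zero h3
  · intro u hu hu1
    by_contra huT
    exact hu1 (hδ2 u huT hu)
  · intro v hv ⟨y, hy⟩
    have h5 : v.valuation K (D : K) = v.valuation K δ * v.valuation K γ ^ 2 := by
      rw [hD, map_mul, map_mul, map_pow, hD1v v (hT v hv).1, one_mul]
    refine nsq_of_ord (hδ1 v hv) ⟨y * (v.valuation K γ)⁻¹, ?_⟩
    have h6 : v.valuation K δ = y * y * ((v.valuation K γ)⁻¹ * (v.valuation K γ)⁻¹) := by
      rw [← hy, h5, sq, mul_assoc, mul_mul_mul_comm (v.valuation K γ) (v.valuation K γ),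
        mul_inv_cancel₀ (hval v), one_mul, mul_one]
    rw [h6, mul_mul_mul_comm]
  · intro v hvT hvS
    refine ⟨v.valuation K γ, ?_⟩
    rw [hD, map_mul, map_mul, map_pow, hD1v v hvS, hδ2 v hvT hvS, one_mul, one_mul, sq]

/-- Two such elements which differ by a square belong to the same set of primes. -/
theorem one_inj {K : Type} [Field K] [NumberField K] {Sg T T' : Finset (HeightOneSpectrum (𝓞 K))}
    {D D' : 𝓞 K} (hD : D ≠ 0) (hD' : D' ≠ 0) (hT : ∀ v ∈ T, v ∉ Sg) (hT' : ∀ v ∈ T', v ∉ Sg)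
    (h1 : ∀ v ∈ T, ¬ IsSquare (v.valuation K (D : K)))
    (h2 : ∀ v : HeightOneSpectrum (𝓞 K), v ∉ T → v ∉ Sg → IsSquare (v.valuation K (D : K)))
    (h1' : ∀ v ∈ T', ¬ IsSquare (v.valuation K (D' : K)))
    (h2' : ∀ v : HeightOneSpectrum (𝓞 K), v ∉ T' → v ∉ Sg → IsSquare (v.valuation K (D' : K)))
    (h : IsSquare ((D : K) * (D' : K))) : T = T' := by
  have key : ∀ (x y : WithZero (Multiplicative ℤ)), x ≠ 0 → y ≠ 0 → IsSquare (x * y) →
      IsSquare x → IsSquare y := by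
    rintro x y hx hy ⟨z, hz⟩ ⟨w, hw⟩
    have hw0 : w ≠ 0 := by
      rintro rfl
      exact hx (by rw [hw, mul_zero])
    refine ⟨z * w⁻¹, ?_⟩
    rw [mul_mul_mul_comm, ← hz, ← mul_inv, ← hw, mul_comm x y, mul_assoc, mul_inv_cancel₀ hx,
      mul_one]
  have h0 : ∀ v : HeightOneSpectrum (𝓞 K), v.valuation K (D : K) ≠ 0 := fun v h3 =>
    hD (by
      have h4 := (map_eq_zero _).1 h3
      exact (map_eq_zero_iff (algebraMap (𝓞 K) K) (IsFractionRing.injective (𝓞 K) K)).1 h4)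
  have h0' : ∀ v : HeightOneSpectrum (𝓞 K), v.valuation K (D' : K) ≠ 0 := fun v h3 =>
    hD' (by
      have h4 := (map_eq_zero _).1 h3
      exact (map_eq_zero_iff (algebraMap (𝓞 K) K) (IsFractionRing.injective (𝓞 K) K)).1 h4)
  have hv : ∀ v : HeightOneSpectrum (𝓞 K),
      IsSquare (v.valuation K (D : K) * v.valuation K (D' : K)) := by
    intro v
    obtain ⟨z, hz⟩ := h
    exact ⟨v.valuation K z, by rw [← map_mul, hz, map_mul]⟩
  ext v
  constructor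
  · intro hvT
    by_contra hvT'
    refine h1 v hvT (key _ _ (h0' v) (h0 v) ?_ (h2' v hvT' (hT v hvT)))
    rw [mul_comm]
    exact hv v
  · intro hvT'
    by_contra hvT
    exact h1' v hvT' (key _ _ (h0 v) (h0' v) (hv v) (h2 v hvT (hT' v hvT')))

end H30QC
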