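import Pool.Agent.H30.QC.A3
import Pool.Agent.H30.QC.B4
import Pool.Agent.H30.QC.C1

/-!
ROW QC/E1: the family of twisting elements (proved by helper37).

PROOF. `P := {p | p prime, some v ∈ Gp has norm p}`; choose such a `v = q p` for each `p ∈ P` (injective: its norm is `p`). `count` (A3) and `good_dense` (B4): at least `Y / (log Y)^(1-e)` squarefree `m ≤ Y` have all prime factors in `P`, for `Y ≥ Y₀`. For such an `m` let `T m := {q p : p ∣ m prime}`, `∏_{v ∈ T m} Nv = m` (`m` squarefree: product of its prime factors, `Nat.prod_primeFactors_of_squarefree`).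
`H88OD.exists_delta h2 hcl (T m) (fun q hq => q ∉ Sg) (t := 0)` with `∑_{q ∈ T m} la q β = 0 = ∑_s 0` gives `δ` with `ord_q δ = 1` for `q ∈ T m`, valuation 1 outside `Sg ∪ T m`, square at `Sg`, `si s (sc δ) = 0`, i.e. `0 < s δ` (see how `H38MR.exists_del` in Pool/Agent/H38/MR/Ga.lean gets positivity from `si`). So `hout` holds: `u ∉ Sg` and `u.valuation K δ ≠ 1` imply `u ∈ T m ⊆ Gp`.
`reduce K` (C1) for `x := D1 * δ` and the finite set `T := T₁ ∪ T m`, `T₁ := Sg` (outside `Sg ∪ T m` the valuation of `D1` is 1 by `hD1v`): `γ`, `D` with `‖s D‖ ≤ C (N₁ m)^(1/n)`, `N₁ := ∏_{v ∈ Sg} Nv`, `n = finrank ℚ K`. Given `X` large put `Y := (X / C)^n / N₁`; for `m ≤ Y` we get `‖s D‖ ≤ X`. The map `m ↦ D m` on `Sm P ⌊Y⌋₊`: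
if `D m * D m'` is a square then `δ δ'` is a square times `D1^2 ..`, so `ord_v` of `δ δ'` is even for all `v`, so `T m = T m'` (for `v ∈ T m`, `v ∉ T m'` it is odd), so `m = m'`; in particular the map is injective and its image `F` has the cardinality of `Sm P ⌊Y⌋₊`, which is at least `Y / (log Y)^(1-e) ≥ X^n / (log X)^(1 - e/2)` for large `X` (`log Y ≤ n log X + O(1)`; if `e > 1` replace `e` by `1/2` first: `log Y ≥ 1`).
-/

set_option autoImplicit false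
set_option linter.unusedSectionVars false
open scoped Classical

open NumberField IsDedekindDomain
open H38T1 (SC sc la)

namespace H30QC

open H38RT in
private lemma e1_unit {K : Type} [Field K] [NumberField K] {v : HeightOneSpectrum (𝓞 K)} {x : K}
    (h : v.valuation K x = 1) : ord (v.valuation K) x = 0 := by
  unfold ord
  rw [h, WithZero.log_one, neg_zero]

open H38RT in
private lemma e1_pow {K : Type} [Field K] [NumberField K] {v : HeightOneSpectrum (𝓞 K)} {x : K}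
    (h : x ≠ 0) : Even (ord (v.valuation K) (x ^ 2)) := by
  rw [sq, ord_mul h h]
  exact ⟨_, rfl⟩

/-- The elements attached to the squarefree numbers. -/
private lemma e1_one {K N : Type} [Field K] [NumberField K] [Field N] [NumberField N]
    [Algebra K N] {ι : Type} (a b : ι → 𝓞 K)
    {Sg : Finset (HeightOneSpectrum (𝓞 K))}
    (h2 : ∀ v : HeightOneSpectrum (𝓞 K), v ∉ Sg → v.valuation K 2 = 1) (hcl : H88OD.ClOk K Sg)
    {D1 : K} (hD1 : D1 ≠ 0) (hD1v : ∀ v : HeightOneSpectrum (𝓞 K), v ∉ Sg → v.valuation K D1 = 1)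
    {C : ℝ} (hred : ∀ (x : K), x ≠ 0 → ∀ T : Finset (HeightOneSpectrum (𝓞 K)),
      (∀ v : HeightOneSpectrum (𝓞 K), v ∉ T → IsSquare (v.valuation K x)) →
      ∃ (γ : K) (D : 𝓞 K), γ ≠ 0 ∧ (D : K) = x * γ ^ 2 ∧
        ∀ s : K →+* ℂ, ‖s (D : K)‖ ≤
          C * (∏ v ∈ T, (Ideal.absNorm v.asIdeal : ℝ)) ^ ((1 : ℝ) / Module.finrank ℚ K))
    {q : ℕ → HeightOneSpectrum (𝓞 K)} {m : ℕ} (hsf : Squarefree m)
    (hq : ∀ p : ℕ, p.Prime → p ∣ m → q p ∈ Gp K N a b Sg ∧ Ideal.absNorm (q p).asIdeal = p) :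
    ∃ (D : 𝓞 K) (δ γ : K), δ ≠ 0 ∧ γ ≠ 0 ∧ (D : K) = D1 * δ * γ ^ 2 ∧
      (∀ u ∈ Sg, IsSquare (algebraMap K (u.adicCompletion K) δ)) ∧
      (∀ s : K →+* ℝ, 0 < s δ) ∧
      (∀ u : HeightOneSpectrum (𝓞 K), u ∉ Sg → u.valuation K δ ≠ 1 → u ∈ Gp K N a b Sg) ∧
      (∀ s : K →+* ℂ, ‖s (D : K)‖ ≤
        C * ((∏ v ∈ Sg, (Ideal.absNorm v.asIdeal : ℝ)) * m) ^ ((1 : ℝ) / Module.finrank ℚ K)) ∧
      ∀ v : HeightOneSpectrum (𝓞 K), v ∉ Sg →
        (Odd (H38RT.ord (v.valuation K) (D : K)) ↔ v ∈ m.primeFactors.image q) := by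
  have hm0 : m ≠ 0 := hsf.ne_zero
  have hq' : ∀ p ∈ m.primeFactors, q p ∈ Gp K N a b Sg ∧ Ideal.absNorm (q p).asIdeal = p :=
    fun p hp => hq p (Nat.prime_of_mem_primeFactors hp) (Nat.dvd_of_mem_primeFactors hp)
  have hT : ∀ v ∈ m.primeFactors.image q, v ∈ Gp K N a b Sg := by
    intro v hv
    obtain ⟨p, hp, rfl⟩ := Finset.mem_image.1 hv
    exact (hq' p hp).1
  have hinj : Set.InjOn q (m.primeFactors : Set ℕ) := by
    intro p hp p' hp' h
    rw [← (hq' p hp).2, ← (hq' p' hp').2, h]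
  have hprod : ∏ v ∈ m.primeFactors.image q, (Ideal.absNorm v.asIdeal : ℝ) = m := by
    rw [Finset.prod_image hinj]
    rw [Finset.prod_congr rfl fun p hp => by rw [(hq' p hp).2], ← Nat.cast_prod,
      Nat.prod_primeFactors_of_squarefree hsf]
  obtain ⟨δ, hδ0, hδ1, hδ2, hδ3, hδ4⟩ := H88OD.exists_delta h2 hcl (m.primeFactors.image q)
    (fun v hv => (hT v hv).1) 0 (by
      intro β hβ
      rw [Finset.sum_eq_zero fun v hv => (hT v hv).2.2.2 β hβ]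
      symm
      exact Finset.sum_eq_zero fun s _ => by rw [Pi.zero_apply, zero_mul])
  have hD : D1 * δ ≠ 0 := mul_ne_zero hD1 hδ0
  obtain ⟨γ, D, hγ, hDe, hn⟩ := hred (D1 * δ) hD (Sg ∪ m.primeFactors.image q) (by
    intro v hv
    rw [Finset.mem_union, not_or] at hv
    rw [map_mul, hD1v v hv.1, hδ2 v hv.2 hv.1, one_mul]
    exact IsSquare.one)
  refine ⟨D, δ, γ, hδ0, hγ, hDe, hδ3, ?_, ?_, ?_, ?_⟩
  · intro s
    have h3 := hδ4 s
    rw [H38T1.si_sc s hδ0] at h3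
    have h4 : s δ ≠ 0 := (map_ne_zero s).2 hδ0
    by_contra h5
    have h6 : s δ < 0 := lt_of_le_of_ne (not_lt.1 h5) h4
    have h7 : H38RT.sw s δ = 1 := if_pos h6
    rw [h7] at h3
    exact one_ne_zero h3
  · intro u hu hu1
    by_contra h3
    exact hu1 (hδ2 u (fun h4 => h3 (hT u h4)) hu)
  · intro s
    have h3 := hn s
    rw [Finset.prod_union (by
      rw [Finset.disjoint_left]
      exact fun v h4 h5 => (hT v h5).1 h4), hprod] at h3
    exact h3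
  · intro v hv
    rw [hDe, H38RT.ord_mul hD (pow_ne_zero 2 hγ), H38RT.ord_mul hD1 hδ0, e1_unit (hD1v v hv),
      zero_add]
    have h5 : Even (H38RT.ord (v.valuation K) (γ ^ 2)) := e1_pow hγ
    constructor
    · intro h6
      by_contra h7
      rw [e1_unit (hδ2 v h7 hv), zero_add] at h6
      exact (Int.not_odd_iff_even.2 h5) h6
    · intro h6
      rw [hδ1 v h6]
      exact odd_one.add_even h5

private lemma e1_inj {K : Type} [Field K] [NumberField K] {q : ℕ → HeightOneSpectrum (𝓞 K)}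
    {Sg : Finset (HeightOneSpectrum (𝓞 K))} {m m' : ℕ} {D D' : 𝓞 K} (hD0 : (D : K) ≠ 0)
    (hD0' : (D' : K) ≠ 0)
    (hq : ∀ p : ℕ, p.Prime → p ∣ m → q p ∉ Sg ∧ Ideal.absNorm (q p).asIdeal = p)
    (hq' : ∀ p : ℕ, p.Prime → p ∣ m' → q p ∉ Sg ∧ Ideal.absNorm (q p).asIdeal = p)
    (hD : ∀ v : HeightOneSpectrum (𝓞 K), v ∉ Sg →
        (Odd (H38RT.ord (v.valuation K) (D : K)) ↔ v ∈ m.primeFactors.image q))
    (hD' : ∀ v : HeightOneSpectrum (𝓞 K), v ∉ Sg →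
        (Odd (H38RT.ord (v.valuation K) (D' : K)) ↔ v ∈ m'.primeFactors.image q))
    (hm : Squarefree m) (hm' : Squarefree m') (h : IsSquare ((D : K) * (D' : K))) : m = m' := by
  obtain ⟨r, hr⟩ := h
  have hr0 : r ≠ 0 := by
    rintro rfl
    rw [mul_zero] at hr
    exact mul_ne_zero hD0 hD0' hr
  have key : ∀ v : HeightOneSpectrum (𝓞 K), v ∉ Sg →
      (v ∈ m.primeFactors.image q ↔ v ∈ m'.primeFactors.image q) := by
    intro v hv
    rw [← hD v hv, ← hD' v hv]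
    have h1 : H38RT.ord (v.valuation K) (D : K) + H38RT.ord (v.valuation K) (D' : K) =
        H38RT.ord (v.valuation K) r + H38RT.ord (v.valuation K) r := by
      rw [← H38RT.ord_mul hD0 hD0', hr, H38RT.ord_mul hr0 hr0]
    have h2 : Even (H38RT.ord (v.valuation K) (D : K) + H38RT.ord (v.valuation K) (D' : K)) := by
      rw [h1]
      exact ⟨_, rfl⟩
    rw [Int.even_add'] at h2
    exact h2
  have himg : m.primeFactors.image q = m'.primeFactors.image q := by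
    ext v
    by_cases hv : v ∈ Sg
    · constructor
      · intro h3
        obtain ⟨p, hp, rfl⟩ := Finset.mem_image.1 h3
        exact absurd hv (hq p (Nat.prime_of_mem_primeFactors hp)
          (Nat.dvd_of_mem_primeFactors hp)).1
      · intro h3
        obtain ⟨p, hp, rfl⟩ := Finset.mem_image.1 h3
        exact absurd hv (hq' p (Nat.prime_of_mem_primeFactors hp)
          (Nat.dvd_of_mem_primeFactors hp)).1
    · exact key v hv
  have hprod : ∀ k : ℕ, Squarefree k →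
      (∀ p : ℕ, p.Prime → p ∣ k → q p ∉ Sg ∧ Ideal.absNorm (q p).asIdeal = p) →
      ∏ v ∈ k.primeFactors.image q, Ideal.absNorm v.asIdeal = k := by
    intro k hk hqk
    have hq2 : ∀ p ∈ k.primeFactors, Ideal.absNorm (q p).asIdeal = p :=
      fun p hp => (hqk p (Nat.prime_of_mem_primeFactors hp) (Nat.dvd_of_mem_primeFactors hp)).2
    have hinj : Set.InjOn q (k.primeFactors : Set ℕ) := by
      intro p hp p' hp' h
      rw [← hq2 p hp, ← hq2 p' hp', h]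
    rw [Finset.prod_image hinj, Finset.prod_congr rfl hq2, Nat.prod_primeFactors_of_squarefree hk]
  rw [← hprod m hm hq, ← hprod m' hm' hq', himg]

private lemma e1_calc {n : ℕ} (hn : 0 < n) {κ e : ℝ} (hκ : 0 < κ) (he : 0 < e) :
    ∃ e' : ℝ, 0 < e' ∧ ∃ X₀ : ℝ, 1 ≤ X₀ ∧ ∀ X : ℝ, X₀ ≤ X →
      X ^ n / Real.log X ^ (1 - e') ≤ (κ * X ^ n) / Real.log (κ * X ^ n) ^ (1 - e) := by
  obtain ⟨e1, he1⟩ : ∃ e1 : ℝ, e1 = min e (1 / 2) := ⟨_, rfl⟩
  have h1 : 0 < e1 := by rw [he1]; exact lt_min he (by norm_num)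
  have h2 : e1 ≤ e := he1 ▸ min_le_left _ _
  have h3 : e1 ≤ 1 / 2 := he1 ▸ min_le_right _ _
  have t4 : Filter.Tendsto (fun X : ℝ => (Real.log X) ^ (e1 / 2)) Filter.atTop Filter.atTop :=
    (tendsto_rpow_atTop (by positivity)).comp Real.tendsto_log_atTop
  have t5 : Filter.Tendsto (fun X : ℝ => κ * X ^ n) Filter.atTop Filter.atTop :=
    (Filter.tendsto_pow_atTop (by omega)).const_mul_atTop hκ
  obtain ⟨y1, hy1⟩ := Filter.eventually_atTop.1
    ((t4.eventually (Filter.eventually_ge_atTop ((n + 1 : ℝ) / κ))).and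
      ((Real.tendsto_log_atTop.eventually (Filter.eventually_ge_atTop (max 1 (Real.log κ)))).and
        ((Filter.eventually_ge_atTop (1 : ℝ)).and
          (t5.eventually (Filter.eventually_ge_atTop (Real.exp 1))))))
  refine ⟨e1 / 2, by positivity, max 1 y1, le_max_left _ _, fun X hX => ?_⟩
  obtain ⟨a1, a2, a3, a4⟩ := hy1 X (le_trans (le_max_right _ _) hX)
  have hX0 : 0 < X := by linarith
  have hl1 : 1 ≤ Real.log X := le_trans (le_max_left _ _) a2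
  have hl2 : Real.log κ ≤ Real.log X := le_trans (le_max_right _ _) a2
  have hlX : 0 < Real.log X := by linarith
  have hXn : 0 < X ^ n := by positivity
  have hY0 : 0 < κ * X ^ n := by positivity
  have hlY1 : 1 ≤ Real.log (κ * X ^ n) := by
    rw [Real.le_log_iff_exp_le hY0]
    exact a4
  have hlY2 : Real.log (κ * X ^ n) ≤ (n + 1 : ℝ) * Real.log X := by
    rw [Real.log_mul hκ.ne' hXn.ne', Real.log_pow]
    linarith
  have hlY : 0 < Real.log (κ * X ^ n) := by linarith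
  have b1 : Real.log (κ * X ^ n) ^ (1 - e) ≤ (n + 1 : ℝ) * Real.log X ^ (1 - e1) := by
    calc Real.log (κ * X ^ n) ^ (1 - e) ≤ Real.log (κ * X ^ n) ^ (1 - e1) :=
          Real.rpow_le_rpow_of_exponent_le hlY1 (by linarith)
      _ ≤ ((n + 1 : ℝ) * Real.log X) ^ (1 - e1) := Real.rpow_le_rpow hlY.le hlY2 (by linarith)
      _ = (n + 1 : ℝ) ^ (1 - e1) * Real.log X ^ (1 - e1) :=
          Real.mul_rpow (by positivity) hlX.le
      _ ≤ (n + 1 : ℝ) * Real.log X ^ (1 - e1) := by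
          have h5 : (n + 1 : ℝ) ^ (1 - e1) ≤ (n + 1 : ℝ) ^ (1 : ℝ) :=
            Real.rpow_le_rpow_of_exponent_le (by
              have : (0 : ℝ) ≤ n := by positivity
              linarith) (by linarith)
          rw [Real.rpow_one] at h5
          have h6 : 0 ≤ Real.log X ^ (1 - e1) := Real.rpow_nonneg hlX.le _
          exact mul_le_mul_of_nonneg_right h5 h6
  have b2 : Real.log X ^ (1 - e1 / 2) = Real.log X ^ (e1 / 2) * Real.log X ^ (1 - e1) := by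
    rw [← Real.rpow_add hlX]
    congr 1
    ring
  have b3 : (n + 1 : ℝ) * Real.log X ^ (1 - e1) ≤ κ * Real.log X ^ (1 - e1 / 2) := by
    rw [b2, ← mul_assoc]
    refine mul_le_mul_of_nonneg_right ?_ (Real.rpow_nonneg hlX.le _)
    rw [div_le_iff₀ hκ] at a1
    linarith
  have c1 : 0 < Real.log X ^ (1 - e1 / 2) := Real.rpow_pos_of_pos hlX _
  have c2 : 0 < Real.log (κ * X ^ n) ^ (1 - e) := Real.rpow_pos_of_pos hlY _
  rw [div_le_div_iff₀ c1 c2]
  calc X ^ n * Real.log (κ * X ^ n) ^ (1 - e) ≤ X ^ n * (κ * Real.log X ^ (1 - e1 / 2)) := by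
        exact mul_le_mul_of_nonneg_left (b1.trans b3) hXn.le
    _ = κ * X ^ n * Real.log X ^ (1 - e1 / 2) := by ring

theorem family {K N : Type} [Field K] [NumberField K] [Field N] [NumberField N]
    [Algebra K N] [IsGalois K N] {ι : Type} [Fintype ι] (a b : ι → 𝓞 K)
    (hir : ∀ (j : ι) (t : K), t ^ 3 + (a j : K) * t + (b j : K) ≠ 0)
    (hind : ∀ I : Finset ι, I.Nonempty →
      ¬ IsSquare (algebraMap K N (∏ j ∈ I, H26OD.dd3 (a j : K) (b j : K))))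
    {Sg : Finset (HeightOneSpectrum (𝓞 K))}
    (h2 : ∀ v : HeightOneSpectrum (𝓞 K), v ∉ Sg → v.valuation K 2 = 1) (hcl : H88OD.ClOk K Sg)
    {D1 : K} (hD1 : D1 ≠ 0) (hD1v : ∀ v : HeightOneSpectrum (𝓞 K), v ∉ Sg → v.valuation K D1 = 1) :
    ∃ e : ℝ, 0 < e ∧ ∃ X₀ : ℝ, ∀ X : ℝ, X₀ ≤ X → ∃ F : Finset (𝓞 K),
      X ^ Module.finrank ℚ K / Real.log X ^ (1 - e) ≤ (F.card : ℝ) ∧
      (∀ D ∈ F, ∀ D' ∈ F, IsSquare ((D : K) * (D' : K)) → D = D') ∧
      ∀ D ∈ F, (∀ s : K →+* ℂ, ‖s (D : K)‖ ≤ X) ∧ ∃ δ γ : K, δ ≠ 0 ∧ γ ≠ 0 ∧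
        (D : K) = D1 * δ * γ ^ 2 ∧
        (∀ u ∈ Sg, IsSquare (algebraMap K (u.adicCompletion K) δ)) ∧
        (∀ s : K →+* ℝ, 0 < s δ) ∧
        ∀ u : HeightOneSpectrum (𝓞 K), u ∉ Sg → u.valuation K δ ≠ 1 → u ∈ Gp K N a b Sg := by
  have hdense := good_dense (N := N) a b hir hind Sg
  obtain ⟨P, hPdef⟩ : ∃ P : Set ℕ, P = {p : ℕ | p.Prime ∧ ∃ v ∈ Gp K N a b Sg,
    Ideal.absNorm v.asIdeal = p} := ⟨_, rfl⟩
  rw [← hPdef] at hdense
  have hPp : ∀ p ∈ P, p.Prime := by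
    intro p hp
    rw [hPdef] at hp
    exact hp.1
  have hne : Nonempty (HeightOneSpectrum (𝓞 K)) := by
    obtain ⟨c, hc, x₀, h⟩ := hdense
    have h1 := h (max x₀ 2) (le_max_left _ _)
    have h3 : (2 : ℝ) ≤ max x₀ 2 := le_max_right _ _
    have h4 : 0 < Real.log (max x₀ 2) := Real.log_pos (by linarith)
    have h5 : 0 < c * (max x₀ 2 / Real.log (max x₀ 2)) := by positivity
    have h6 : (0 : ℝ) < ({p : ℕ | p ∈ P ∧ (p : ℝ) ≤ max x₀ 2}.ncard : ℝ) := h5.trans_le h1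
    have h7 : {p : ℕ | p ∈ P ∧ (p : ℝ) ≤ max x₀ 2}.ncard ≠ 0 := by
      intro h8
      rw [h8, Nat.cast_zero] at h6
      exact lt_irrefl _ h6
    obtain ⟨p, hp, -⟩ := Set.nonempty_of_ncard_ne_zero h7
    rw [hPdef] at hp
    obtain ⟨-, v, -⟩ := hp
    exact ⟨v⟩
  have hch : ∀ p : ℕ, ∃ v : HeightOneSpectrum (𝓞 K), p ∈ P →
      v ∈ Gp K N a b Sg ∧ Ideal.absNorm v.asIdeal = p := by
    intro p
    by_cases hp : p ∈ P
    · have hp' := hp
      rw [hPdef] at hp'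
      obtain ⟨-, v, hv, hvp⟩ := hp'
      exact ⟨v, fun _ => ⟨hv, hvp⟩⟩
    · exact ⟨hne.some, fun h => absurd h hp⟩
  choose q hq using hch
  obtain ⟨C, hC, hred⟩ := reduce K
  obtain ⟨e, he, Y₀, hcount⟩ := count hPp hdense
  obtain ⟨n, hn⟩ : ∃ n : ℕ, n = Module.finrank ℚ K := ⟨_, rfl⟩
  have hn0 : 0 < n := by
    rw [hn]
    exact Module.finrank_pos
  obtain ⟨N₁, hN₁⟩ : ∃ N₁ : ℝ, N₁ = ∏ v ∈ Sg, (Ideal.absNorm v.asIdeal : ℝ) := ⟨_, rfl⟩
  have hN₁0 : 0 < N₁ := by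
    rw [hN₁]
    refine Finset.prod_pos fun v _ => ?_
    have : Ideal.absNorm v.asIdeal ≠ 0 := by
      rw [Ne, Ideal.absNorm_eq_zero_iff]
      exact v.ne_bot
    exact_mod_cast Nat.pos_of_ne_zero this
  have hκ : 0 < 1 / (C ^ n * N₁) := by positivity
  obtain ⟨e', he', X₀, hX₀, hcalc⟩ := e1_calc hn0 hκ he
  have hone : ∀ m : ℕ, ∃ D : 𝓞 K, (Squarefree m ∧ ∀ p : ℕ, p.Prime → p ∣ m → p ∈ P) →
      ∃ δ γ : K, δ ≠ 0 ∧ γ ≠ 0 ∧ (D : K) = D1 * δ * γ ^ 2 ∧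
      (∀ u ∈ Sg, IsSquare (algebraMap K (u.adicCompletion K) δ)) ∧
      (∀ s : K →+* ℝ, 0 < s δ) ∧
      (∀ u : HeightOneSpectrum (𝓞 K), u ∉ Sg → u.valuation K δ ≠ 1 → u ∈ Gp K N a b Sg) ∧
      (∀ s : K →+* ℂ, ‖s (D : K)‖ ≤ C * (N₁ * m) ^ ((1 : ℝ) / n)) ∧
      ∀ v : HeightOneSpectrum (𝓞 K), v ∉ Sg →
        (Odd (H38RT.ord (v.valuation K) (D : K)) ↔ v ∈ m.primeFactors.image q) := by
    intro m
    by_cases hm : Squarefree m ∧ ∀ p : ℕ, p.Prime → p ∣ m → p ∈ P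
    · obtain ⟨D, δ, γ, h3⟩ := e1_one a b h2 hcl hD1 hD1v hred (q := q) hm.1
        (fun p hp hpm => hq p (hm.2 p hp hpm))
      rw [← hN₁, ← hn] at h3
      exact ⟨D, fun _ => ⟨δ, γ, h3⟩⟩
    · exact ⟨0, fun h => absurd h hm⟩
  choose Dm hDm using hone
  have hSm : ∀ {M m : ℕ}, m ∈ Sm P M → Squarefree m ∧ ∀ p : ℕ, p.Prime → p ∣ m → p ∈ P :=
    fun h => (mem_Sm.1 h).2.2
  have hnz : ∀ {m : ℕ}, (Squarefree m ∧ ∀ p : ℕ, p.Prime → p ∣ m → p ∈ P) →
      ((Dm m : 𝓞 K) : K) ≠ 0 := by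
    intro m hm
    obtain ⟨δ, γ, h3, h4, h5, -⟩ := hDm m hm
    rw [h5]
    exact mul_ne_zero (mul_ne_zero hD1 h3) (pow_ne_zero 2 h4)
  have hsq : ∀ {M m m' : ℕ}, m ∈ Sm P M → m' ∈ Sm P M →
      IsSquare (((Dm m : 𝓞 K) : K) * ((Dm m' : 𝓞 K) : K)) → m = m' := by
    intro M m m' hm hm' h
    have h3 := hSm hm
    have h4 := hSm hm'
    obtain ⟨δ, γ, -, -, -, -, -, -, -, h5⟩ := hDm m h3
    obtain ⟨δ', γ', -, -, -, -, -, -, -, h6⟩ := hDm m' h4
    exact e1_inj (hnz h3) (hnz h4)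
      (fun p hp hpm => ⟨(hq p (h3.2 p hp hpm)).1.1, (hq p (h3.2 p hp hpm)).2⟩)
      (fun p hp hpm => ⟨(hq p (h4.2 p hp hpm)).1.1, (hq p (h4.2 p hp hpm)).2⟩) h5 h6 h3.1 h4.1 h
  obtain ⟨X₁, hX₁⟩ := Filter.eventually_atTop.1
    (((Filter.tendsto_pow_atTop (α := ℝ) (n := n) (by omega)).const_mul_atTop hκ).eventually
      (Filter.eventually_ge_atTop Y₀))
  refine ⟨e', he', max X₀ X₁, fun X hX => ?_⟩
  have hXX₀ : X₀ ≤ X := le_trans (le_max_left _ _) hX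
  have hXX₁ : X₁ ≤ X := le_trans (le_max_right _ _) hX
  have hX0 : 0 < X := by linarith
  obtain ⟨Y, hY⟩ : ∃ Y : ℝ, Y = 1 / (C ^ n * N₁) * X ^ n := ⟨_, rfl⟩
  have hY0 : 0 < Y := by
    rw [hY]
    positivity
  refine ⟨(Sm P ⌊Y⌋₊).image Dm, ?_, ?_, ?_⟩
  · have hinj : Set.InjOn Dm (Sm P ⌊Y⌋₊ : Set ℕ) := by
      intro m hm m' hm' h
      apply hsq (Finset.mem_coe.1 hm) (Finset.mem_coe.1 hm')
      rw [h]
      exact ⟨_, rfl⟩
    rw [Finset.card_image_of_injOn hinj, ← hn]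
    refine (hcalc X hXX₀).trans ?_
    rw [← hY]
    exact hcount Y (by rw [hY]; exact hX₁ X hXX₁)
  · intro D hD D' hD' h
    obtain ⟨m, hm, rfl⟩ := Finset.mem_image.1 hD
    obtain ⟨m', hm', rfl⟩ := Finset.mem_image.1 hD'
    rw [hsq hm hm' h]
  · intro D hD
    obtain ⟨m, hm, rfl⟩ := Finset.mem_image.1 hD
    obtain ⟨δ, γ, h3, h4, h5, h6, h7, h8, h9, -⟩ := hDm m (hSm hm)
    refine ⟨fun s => (h9 s).trans ?_, δ, γ, h3, h4, h5, h6, h7, h8⟩
    have hmY : (m : ℝ) ≤ Y := by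
      have h10 : m ≤ ⌊Y⌋₊ := (mem_Sm.1 hm).2.1
      exact (Nat.le_floor_iff hY0.le).1 h10
    have h11 : N₁ * m ≤ (X / C) ^ n := by
      calc N₁ * m ≤ N₁ * Y := by gcongr
        _ = (X / C) ^ n := by
          rw [hY, div_pow]
          field_simp
    have h12 : (N₁ * m) ^ ((1 : ℝ) / n) ≤ X / C := by
      calc (N₁ * m) ^ ((1 : ℝ) / n) ≤ ((X / C) ^ n) ^ ((1 : ℝ) / n) := by
            apply Real.rpow_le_rpow (by positivity) h11 (by positivity)
        _ = X / C := by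
          rw [one_div, Real.pow_rpow_inv_natCast (by positivity) (by omega)]
    calc C * (N₁ * m) ^ ((1 : ℝ) / n) ≤ C * (X / C) := by gcongr
      _ = X := by field_simp

end H30QC
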