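import Pool.Agent.H30.QC.E1
import Pool.Agent.H30.QC.V1
import Pool.Agent.H26.GN.G1
import Pool.Agent.H88.PL.Pf
import Pool.Agent.H88.GN.Kd

/-!
Project MP_78d38b_QC, row F1 (helper88): the number of twists which are trivial over all fields between `K` and `N`.
-/

set_option autoImplicit false
set_option linter.unusedSectionVars false
open scoped Classical

open NumberField IsDedekindDomain
open H26GX (Pk)

namespace H30QC

private theorem fin_val {K : Type} [Field K] [NumberField K] {x : K} (hx : x ≠ 0) :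
    {v : HeightOneSpectrum (𝓞 K) | v.valuation K x ≠ 1}.Finite := by
  obtain ⟨α, β, hβ, hxy⟩ := IsFractionRing.div_surjective (A := 𝓞 K) x
  have hβ0 : β ≠ 0 := nonZeroDivisors.ne_zero hβ
  have hα0 : α ≠ 0 := by
    rintro rfl
    apply hx
    rw [← hxy, map_zero, zero_div]
  refine ((H30MQ.fin_mem hα0).union (H30MQ.fin_mem hβ0)).subset fun v hv => ?_
  by_contra h
  rw [Set.mem_union, not_or] at h
  apply hv
  rw [← hxy, map_div₀, v.valuation_eq_one_iff_notMem.mpr h.1, v.valuation_eq_one_iff_notMem.mpr h.2,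
    div_one]

/-- The number of simultaneous twists, for a finite set `T` of multipliers. -/
theorem many_twists_T {K N : Type} [Field K] [NumberField K] [Field N] [NumberField N]
    [Algebra K N] [IsGalois K N] {ι : Type} [Fintype ι] (a b : ι → 𝓞 K)
    (hir : ∀ (j : ι) (t : K), t ^ 3 + (a j : K) * t + (b j : K) ≠ 0)
    (hind : ∀ I : Finset ι, I.Nonempty →
      ¬ IsSquare (algebraMap K N (∏ j ∈ I, H26OD.dd3 (a j : K) (b j : K))))
    (T : Finset K) (hT : ∀ t ∈ T, t ≠ 0) {D1 : K} (hD1 : D1 ≠ 0)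
    (htv : ∀ j, ∀ t ∈ T, H88PL.TvN K N (a j : K) (b j : K) (t * D1))
    (S : Finset (HeightOneSpectrum (𝓞 K))) :
    ∃ e : ℝ, 0 < e ∧ ∃ X₀ : ℝ, ∀ X : ℝ, X₀ ≤ X → ∃ F : Finset (𝓞 K),
      X ^ Module.finrank ℚ K / Real.log X ^ (1 - e) ≤ (F.card : ℝ) ∧
      (∀ D ∈ F, ∀ D' ∈ F, IsSquare ((D : K) * (D' : K)) → D = D') ∧
      ∀ D ∈ F, (D : K) ≠ 0 ∧ (∀ s : K →+* ℂ, ‖s (D : K)‖ ≤ X) ∧
        (∀ v ∈ S, IsSquare (algebraMap K (v.adicCompletion K) ((D : K) / D1))) ∧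
        (∀ s : K →+* ℝ, 0 < s ((D : K) / D1)) ∧
        (∀ v : HeightOneSpectrum (𝓞 K), v ∉ H26OD.Zs K N →
          IsSquare (v.valuation K ((D : K) / D1))) ∧
        ∀ j, ∀ t ∈ T, H88PL.TvN K N (a j : K) (b j : K) (t * (D : K)) := by
  have hsq : ∀ j, ¬ IsSquare (algebraMap K N (H26OD.dd3 (a j : K) (b j : K))) := by
    intro j h
    apply hind {j} (Finset.singleton_nonempty j)
    rwa [Finset.prod_singleton]
  have p : ∀ j, Pk K N (a j : K) (b j : K) := fun j =>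
    (H26GX.exists_pk (a j) (b j) (hir j) (hsq j)).some
  obtain ⟨Sg1, hle1, hok1, -⟩ := H26GX.ok_all p hD1 S
  have hTf : (⋃ t ∈ T, {v : HeightOneSpectrum (𝓞 K) | v.valuation K t ≠ 1}).Finite :=
    T.finite_toSet.biUnion fun t ht => fin_val (hT t ht)
  obtain ⟨Sc, hSc, hcl0⟩ := H88OD.exists_cl (K := K)
    (Sg1 ∪ ((fin_val (K := K) two_ne_zero).toFinset ∪ ((fin_val hD1).toFinset ∪ hTf.toFinset)))
  have hcl : H88OD.ClOk K Sc := hcl0 Sc (Finset.Subset.refl _)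
  have h1 : ∀ v, v ∉ Sc → v ∉ Sg1 := fun v hv h => hv (hSc (Finset.mem_union_left _ h))
  have h2 : ∀ v : HeightOneSpectrum (𝓞 K), v ∉ Sc → v.valuation K 2 = 1 := by
    intro v hv
    by_contra h
    exact hv (hSc (Finset.mem_union_right _ (Finset.mem_union_left _ (by
      rw [Set.Finite.mem_toFinset]
      exact h))))
  have h3 : ∀ v : HeightOneSpectrum (𝓞 K), v ∉ Sc → v.valuation K D1 = 1 := by
    intro v hv
    by_contra h
    exact hv (hSc (Finset.mem_union_right _ (Finset.mem_union_right _ (Finset.mem_union_left _ (by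
      rw [Set.Finite.mem_toFinset]
      exact h)))))
  have h4 : ∀ t ∈ T, ∀ v : HeightOneSpectrum (𝓞 K), v ∉ Sc → v.valuation K t = 1 := by
    intro t ht v hv
    by_contra h
    exact hv (hSc (Finset.mem_union_right _ (Finset.mem_union_right _ (Finset.mem_union_right _ (by
      rw [Set.Finite.mem_toFinset]
      exact Set.mem_biUnion (Finset.mem_coe.2 ht) h)))))
  have hok : ∀ j, ∀ t ∈ T, (p j).S.Ok (t * D1) Sc := fun j t ht =>
    ⟨mul_ne_zero (hT t ht) hD1, fun v hv => (hok1 j).two v (h1 v hv),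
      fun v hv => (hok1 j).dis v (h1 v hv), fun v hv => by
        rw [map_mul, h3 v hv, h4 t ht v hv, one_mul]⟩
  obtain ⟨e, he, X₀, hX⟩ := family (N := N) a b hir hind h2 hcl hD1 h3
  refine ⟨e, he, X₀, fun X hXX => ?_⟩
  obtain ⟨F, hF, hdif, hD⟩ := hX X hXX
  refine ⟨F, hF, hdif, fun D hDF => ?_⟩
  obtain ⟨hsize, δ, γ, hδ, hγ, hDe, hsqS, hpos, hout⟩ := hD D hDF
  have hD0 : (D : K) ≠ 0 := by
    rw [hDe]
    exact mul_ne_zero (mul_ne_zero hD1 hδ) (pow_ne_zero 2 hγ)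
  have hq : (D : K) / D1 = δ * γ ^ 2 := by
    rw [hDe]
    field_simp
  refine ⟨hD0, hsize, fun v hv => ?_, fun s => ?_, fun v hv => ?_, fun j t ht => ?_⟩
  · rw [hq, map_mul, map_pow]
    exact (hsqS v (hSc (Finset.mem_union_left _ (hle1 hv)))).mul ⟨_, sq _⟩
  · rw [hq, map_mul, map_pow]
    have h5 : s γ ≠ 0 := (map_ne_zero s).2 hγ
    exact mul_pos (hpos s) (by positivity)
  · rw [hq, map_mul, map_pow]
    refine IsSquare.mul ?_ ⟨_, sq _⟩
    by_cases hvS : v ∈ Sc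
    · obtain ⟨r, hr⟩ := hsqS v hvS
      have h6 : v.valuation K δ = Valued.v (algebraMap K (v.adicCompletion K) δ) :=
        (v.valuedAdicCompletion_eq_valuation' δ).symm
      rw [h6, hr, map_mul]
      exact ⟨_, rfl⟩
    · by_contra h7
      apply hv
      refine (hout v hvS ?_).2.1
      intro h8
      apply h7
      rw [h8]
      exact ⟨1, (mul_one 1).symm⟩
  · have ht1 : t * D1 ≠ 0 := mul_ne_zero (hT t ht) hD1
    have hV0 : (p j).V0 (t * D1) := fun c hc => H88GN.V_of_tv (p j).S ht1 (htv j t ht N) c hc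
    have hDt : t * (D : K) = t * D1 * δ * γ ^ 2 := by
      rw [hDe]
      ring
    have hV : ∀ c, (p j).S.V (t * (D : K)) c → c = 0 := by
      intro c hc
      apply hV0 c
      rw [hDt] at hc
      refine (V_fam (p j).S (hok j t ht) hδ hγ hsqS hpos (fun u hu hu1 => ?_) c).1 hc
      obtain ⟨-, g1, g2, -⟩ := hout u hu hu1
      exact ⟨g1, fun t ht => H26OD.val_NR (g2 j) t ht⟩
    exact fun M _ _ _ _ _ => H88GX.tv_between (p j).S (mul_ne_zero (hT t ht) hD0) hV M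

theorem many_twists {K N : Type} [Field K] [NumberField K] [Field N] [NumberField N]
    [Algebra K N] [IsGalois K N] {ι : Type} [Fintype ι] (a b : ι → 𝓞 K)
    (hir : ∀ (j : ι) (t : K), t ^ 3 + (a j : K) * t + (b j : K) ≠ 0)
    (hind : ∀ I : Finset ι, I.Nonempty →
      ¬ IsSquare (algebraMap K N (∏ j ∈ I, H26OD.dd3 (a j : K) (b j : K))))
    {D1 : K} (hD1 : D1 ≠ 0) (htv : ∀ j, H88PL.TvN K N (a j : K) (b j : K) D1)
    (S : Finset (HeightOneSpectrum (𝓞 K))) :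
    ∃ e : ℝ, 0 < e ∧ ∃ X₀ : ℝ, ∀ X : ℝ, X₀ ≤ X → ∃ F : Finset (𝓞 K),
      X ^ Module.finrank ℚ K / Real.log X ^ (1 - e) ≤ (F.card : ℝ) ∧
      (∀ D ∈ F, ∀ D' ∈ F, IsSquare ((D : K) * (D' : K)) → D = D') ∧
      ∀ D ∈ F, (D : K) ≠ 0 ∧ (∀ s : K →+* ℂ, ‖s (D : K)‖ ≤ X) ∧
        (∀ v ∈ S, IsSquare (algebraMap K (v.adicCompletion K) ((D : K) / D1))) ∧
        (∀ s : K →+* ℝ, 0 < s ((D : K) / D1)) ∧
        (∀ v : HeightOneSpectrum (𝓞 K), v ∉ H26OD.Zs K N →
          IsSquare (v.valuation K ((D : K) / D1))) ∧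
        ∀ j, H88PL.TvN K N (a j : K) (b j : K) (D : K) := by
  obtain ⟨e, he, X₀, h⟩ := many_twists_T (N := N) a b hir hind {1}
    (fun t ht => by
      rw [Finset.mem_singleton.1 ht]
      exact one_ne_zero) hD1 (fun j t ht => by
      rw [Finset.mem_singleton.1 ht, one_mul]
      exact htv j) S
  refine ⟨e, he, X₀, fun X hX => ?_⟩
  obtain ⟨F, h1, h2, h3⟩ := h X hX
  refine ⟨F, h1, h2, fun D hD => ?_⟩
  obtain ⟨g1, g2, g3, g4, g5, g6⟩ := h3 D hD
  exact ⟨g1, g2, g3, g4, g5, fun j => by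
    have := g6 j 1 (Finset.mem_singleton_self 1)
    rwa [one_mul] at this⟩

end H30QC
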